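import Mathlib
import Pool.Agent.H552R3.PC.Quant3
import Pool.Agent.H552R3.PC.Line
import Pool.Agent.TH82.NC.Dom

/-!
Polynomials on `n × n` matrices over an infinite field: a polynomial which is not an identity has
an invertible value; `n`-central polynomials for a prime `n`.
-/

set_option autoImplicit false

namespace Pool.Agent.Q220.NC

open Matrix Polynomial Pool.Agent.H552R3.PC Pool.Agent.TH82.NC

variable {K : Type*} [Field K] {σ : Type*} {n : ℕ}

/-- Every value of `f` on `n × n` matrices over `K` is a scalar matrix. -/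
def SV (n : ℕ) (f : FreeAlgebra K σ) : Prop :=
  ∀ X : σ → Matrix (Fin n) (Fin n) K, ∃ c : K, FreeAlgebra.lift K X f = Matrix.scalar (Fin n) c

/-- `f` vanishes on `n × n` matrices over `K`. -/
def Idt (n : ℕ) (f : FreeAlgebra K σ) : Prop :=
  ∀ X : σ → Matrix (Fin n) (Fin n) K, FreeAlgebra.lift K X f = 0

/-- `f` is central for `M_n(K)`. -/
def IsCen (n : ℕ) (f : FreeAlgebra K σ) : Prop :=
  SV n f ∧ ∃ X : σ → Matrix (Fin n) (Fin n) K, FreeAlgebra.lift K X f ≠ 0

/-- `f` is `ν`-central for `M_n(K)`. -/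
def IsNu (n ν : ℕ) (f : FreeAlgebra K σ) : Prop :=
  0 < ν ∧ IsCen n (f ^ ν) ∧ ∀ μ : ℕ, 0 < μ → IsCen n (f ^ μ) → ν ≤ μ

theorem gen_det_ne [Infinite K] (f : FreeAlgebra K σ)
    (h : (FreeAlgebra.lift K (gen K σ n) f).det ≠ 0) :
    ∃ X : σ → Matrix (Fin n) (Fin n) K, (FreeAlgebra.lift K X f).det ≠ 0 := by
  by_contra hcon
  push Not at hcon
  apply h
  apply MvPolynomial.funext
  intro x
  have e := hcon (fun i => Matrix.of fun b c => x (i, b, c))
  rw [← spz_gen, ← AlgHom.map_det] at e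
  rw [map_zero]
  simpa [spz, MvPolynomial.coe_aeval_eq_eval] using e

theorem gen_det_of [Infinite K] (f : FreeAlgebra K σ)
    (h : ∃ X : σ → Matrix (Fin n) (Fin n) K, (FreeAlgebra.lift K X f).det ≠ 0) :
    (FreeAlgebra.lift K (gen K σ n) f).det ≠ 0 := by
  obtain ⟨X, hX⟩ := h
  intro h0
  apply hX
  rw [← spz_gen, ← AlgHom.map_det, h0, map_zero]

/-- A polynomial which is not an identity of `M_N(K)` has an invertible value. -/
theorem inv_of_ne [Infinite K] (N : ℕ) (f : FreeAlgebra K σ) (h : ¬ Idt N f) :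
    ∃ X : σ → Matrix (Fin N) (Fin N) K, (FreeAlgebra.lift K X f).det ≠ 0 := by
  apply gen_det_ne
  intro hG
  apply h
  intro X0
  rcases Nat.eq_zero_or_pos N with rfl | hN
  · exact Subsingleton.elim _ _
  have : NeZero N := ⟨hN.ne'⟩
  set F := FreeAlgebra.lift K (V K σ N) f with hF
  have hdet : F.det = 0 := by
    rw [hF, ← spz_gen, ← AlgHom.map_det, hG, map_zero]
  obtain ⟨v, hv0, hv⟩ := Matrix.exists_mulVec_eq_zero_iff.mpr hdet
  let Φ : Matrix (Fin N) (Fin N) (GA K σ N)[X] →ₐ[K] (Matrix (Fin N) (Fin N) (GA K σ N))[X] :=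
    (matPolyEquiv (n := Fin N) (R := GA K σ N)).toAlgHom.restrictScalars K
  have hΦ : ∀ M, Φ M = matPolyEquiv M := fun M => rfl
  have h1 : Φ F ∈ S (K := K) (sh K σ N) := by
    rw [hF, lift_map]
    exact lift_mem _ _ (fun i => V_mem N i) f
  have h4 : F = 0 := by
    by_contra hne
    have hq0 : matPolyEquiv F ≠ 0 := by
      intro h0
      exact hne ((EmbeddingLike.map_eq_zero_iff
        (f := matPolyEquiv (n := Fin N) (R := GA K σ N))).mp h0)
    set q := matPolyEquiv F with hq
    set D := q.natDegree with hD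
    have hlead : q.coeff D ≠ 0 := leadingCoeff_ne_zero.mpr hq0
    have hW : W (sh K σ N : GA K σ N →+* GA K σ N) D (q.coeff D) := h1 D
    have hdeg : ∀ j k, (F j k).natDegree ≤ D := by
      intro j k
      rw [natDegree_le_iff_coeff_eq_zero]
      intro m hm
      have h5 : q.coeff m = 0 := coeff_eq_zero_of_natDegree_lt hm
      rw [← matPolyEquiv_coeff_apply, ← hq, h5, Matrix.zero_apply]
    obtain ⟨j0, hj0⟩ : ∃ j0, v j0 ≠ 0 := by
      by_contra hcon
      push Not at hcon
      exact hv0 (funext hcon)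
    classical
    obtain ⟨k0, hk0, hmax⟩ := Finset.exists_max_image
      (Finset.univ.filter fun j => v j ≠ 0) (fun j => (v j).natDegree) ⟨j0, by simp [hj0]⟩
    have hk0' : v k0 ≠ 0 := (Finset.mem_filter.mp hk0).2
    set E := (v k0).natDegree with hE
    have hvdeg : ∀ j, (v j).natDegree ≤ E := by
      intro j
      by_cases hj : v j = 0
      · rw [hj, natDegree_zero]; exact Nat.zero_le _
      · exact hmax j (by simp [hj])
    have hvE : (v k0).coeff E ≠ 0 := leadingCoeff_ne_zero.mpr hk0'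
    have e1 := congrArg (fun p : (GA K σ N)[X] => p.coeff (D + E))
      (congrFun hv (k0 - D • (1 : Fin N)))
    simp only [Matrix.mulVec, dotProduct, Pi.zero_apply, coeff_zero, finsetSum_coeff] at e1
    have e2 : ∀ j, (F (k0 - D • (1 : Fin N)) j * v j).coeff (D + E) =
        q.coeff D (k0 - D • (1 : Fin N)) j * (v j).coeff E := by
      intro j
      rw [coeff_mul_add_eq_of_natDegree_le (hdeg _ j) (hvdeg j), hq, matPolyEquiv_coeff_apply]
    rw [Finset.sum_congr rfl fun j _ => e2 j, Finset.sum_eq_single k0] at e1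
    · rcases mul_eq_zero.mp e1 with h5 | h5
      · have h6 := W_ne _ (sh_inj (K := K) (σ := σ) N) hW hlead (k0 - D • (1 : Fin N))
        rw [sub_add_cancel] at h6
        exact h6 h5
      · exact hvE h5
    · intro j _ hj
      have h5 : q.coeff D (k0 - D • (1 : Fin N)) j = 0 := by
        by_contra hcon
        apply hj
        rw [hW.1 _ _ hcon, sub_add_cancel]
      rw [h5, zero_mul]
    · intro h5; exact absurd (Finset.mem_univ _) h5
  let ψ : (GA K σ N)[X] →ₐ[K] K :=
    (spz X0).comp ((Polynomial.aeval (R := GA K σ N) (1 : GA K σ N)).restrictScalars K)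
  have hψ : (fun i => ψ.mapMatrix (V K σ N i)) = X0 := by
    funext i
    ext b c
    simp [ψ, V, spz]
  have e := congrArg (AlgHom.mapMatrix (m := Fin N) ψ) h4
  rw [hF, lift_map, hψ, map_zero] at e
  exact e

/-- Two polynomials which are not identities are invertible at a common point. -/
theorem common [Infinite K] (f g : FreeAlgebra K σ)
    (hf : ∃ X : σ → Matrix (Fin n) (Fin n) K, (FreeAlgebra.lift K X f).det ≠ 0)
    (hg : ∃ X : σ → Matrix (Fin n) (Fin n) K, (FreeAlgebra.lift K X g).det ≠ 0) :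
    ∃ X : σ → Matrix (Fin n) (Fin n) K, (FreeAlgebra.lift K X f).det ≠ 0 ∧
      (FreeAlgebra.lift K X g).det ≠ 0 := by
  have h1 : (FreeAlgebra.lift K (gen K σ n) (f * g)).det ≠ 0 := by
    rw [map_mul, Matrix.det_mul]
    exact mul_ne_zero (gen_det_of f hf) (gen_det_of g hg)
  obtain ⟨X, hX⟩ := gen_det_ne _ h1
  rw [map_mul, Matrix.det_mul] at hX
  exact ⟨X, left_ne_zero_of_mul hX, right_ne_zero_of_mul hX⟩

theorem comm_of_SV {f : FreeAlgebra K σ} (h : SV n f) (X : σ → Matrix (Fin n) (Fin n) K)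
    (Z : Matrix (Fin n) (Fin n) K) :
    FreeAlgebra.lift K X f * Z = Z * FreeAlgebra.lift K X f := by
  obtain ⟨c, hc⟩ := h X
  rw [hc]
  exact (Matrix.scalar_commute c (fun _ => Commute.all _ _) Z).eq

theorem SV_of_comm {f : FreeAlgebra K σ}
    (h : ∀ (X : σ → Matrix (Fin n) (Fin n) K) (Z : Matrix (Fin n) (Fin n) K),
      FreeAlgebra.lift K X f * Z = Z * FreeAlgebra.lift K X f) : SV n f :=
  fun X => scalar_of_comm _ (h X)

theorem SV_of_Idt {f : FreeAlgebra K σ} (h : Idt n f) : SV n f :=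
  fun X => ⟨0, by rw [h X, map_zero]⟩

/-- If `f` is not scalar valued and `g` is not an identity then at some point `f` is not scalar and
`g` is invertible. -/
theorem nonscalar_inv [Infinite K] (f g : FreeAlgebra K σ) (hf : ¬ SV n f) (hg : ¬ Idt n g) :
    ∃ X : σ → Matrix (Fin n) (Fin n) K, (FreeAlgebra.lift K X g).det ≠ 0 ∧
      ∃ Z, FreeAlgebra.lift K X f * Z ≠ Z * FreeAlgebra.lift K X f := by
  by_contra hcon
  push Not at hcon
  exact hf (SV_of_comm fun X Z => generic g f (inv_of_ne n g hg) hcon X Z)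

/-- `n`-central polynomials, `n` prime: it is enough that the `n`-th power is scalar valued and that
the polynomial is not. -/
theorem nu_of [Infinite K] (hn : n.Prime) (f : FreeAlgebra K σ) (h : SV n (f ^ n))
    (hns : ¬ SV n f) : IsNu n n f := by
  have hid : ¬ Idt n f := fun h0 => hns (SV_of_Idt h0)
  refine ⟨hn.pos, ⟨h, ?_⟩, ?_⟩
  · by_contra hcon
    push Not at hcon
    exact hid (fun X => vanish_of_pow n f n hcon X)
  · intro μ hμ hc
    by_contra hlt
    push Not at hlt
    apply hns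
    have hcop : Nat.Coprime μ n := (Nat.Coprime.symm ((Nat.Prime.coprime_iff_not_dvd hn).mpr
      (Nat.not_dvd_of_pos_of_lt hμ hlt)))
    obtain ⟨u, hu⟩ := Nat.exists_mul_mod_eq_one_of_coprime hcop hn.one_lt
    have hu2 : μ * u = 1 + n * (μ * u / n) := by
      have := Nat.mod_add_div (μ * u) n
      omega
    apply SV_of_comm
    intro X Z
    refine generic f f (inv_of_ne n f hid) ?_ X Z
    intro X hX Y
    obtain ⟨a, ha⟩ := h X
    obtain ⟨b, hb⟩ := hc.1 X
    rw [map_pow] at ha hb
    set M := FreeAlgebra.lift K X f with hM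
    have hs : ∀ (c : K) (Z : Matrix (Fin n) (Fin n) K),
        Matrix.scalar (Fin n) c * Z = c • Z := fun c Z => sc_mul c Z
    have hs' : ∀ (c : K) (Z : Matrix (Fin n) (Fin n) K),
        Z * Matrix.scalar (Fin n) c = c • Z := fun c Z => mul_sc c Z
    have ha0 : a ≠ 0 := by
      intro h0
      rw [h0, map_zero] at ha
      have := congrArg Matrix.det ha
      have hne : Nonempty (Fin n) := ⟨⟨0, hn.pos⟩⟩
      rw [Matrix.det_pow, Matrix.det_zero] at this
      exact hX (pow_eq_zero_iff hn.ne_zero |>.mp this)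
    have e1 : M ^ (μ * u) = Matrix.scalar (Fin n) (b ^ u) := by
      rw [pow_mul, hb, ← map_pow]
    have e2 : M ^ (μ * u) = a ^ (μ * u / n) • M := by
      conv_lhs => rw [hu2]
      rw [pow_add, pow_one, pow_mul, ha, ← map_pow, hs']
    have e3 : M = (a ^ (μ * u / n))⁻¹ • Matrix.scalar (Fin n) (b ^ u) := by
      rw [← e1, e2, smul_smul, inv_mul_cancel₀ (pow_ne_zero _ ha0), one_smul]
    rw [e3, smul_mul_assoc, mul_smul_comm, hs, hs']

end Pool.Agent.Q220.NC
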