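import Mathlib
import Pool.Agent.Q220.NC.Base

/-!
Parts of polynomials of given weight and Laurent polynomials with matrix coefficients.
-/

set_option autoImplicit false

namespace Pool.Agent.Q220.NC

open Matrix Pool.Agent.H552R3.PC Pool.Agent.TH82.NC

section Ring

variable {R : Type*} [Ring R]

/-- The coefficients vanish above `D`. -/
def Bdd (D : ℤ) (P : AddMonoidAlgebra R ℤ) : Prop := ∀ d, D < d → P.coeff d = 0

theorem Bdd.mul {D E : ℤ} {P Q : AddMonoidAlgebra R ℤ} (hP : Bdd D P) (hQ : Bdd E Q) :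
    Bdd (D + E) (P * Q) ∧ (P * Q).coeff (D + E) = P.coeff D * Q.coeff E := by
  classical
  have hP' : ∀ a ∈ P.coeff.support, a ≤ D := fun a ha => by
    by_contra hcon
    exact (Finsupp.mem_support_iff.mp ha) (hP a (not_le.mp hcon))
  have hQ' : ∀ a ∈ Q.coeff.support, a ≤ E := fun a ha => by
    by_contra hcon
    exact (Finsupp.mem_support_iff.mp ha) (hQ a (not_le.mp hcon))
  constructor
  · intro d hd
    rw [AddMonoidAlgebra.coeff_mul]
    refine Finset.sum_eq_zero fun a ha => Finset.sum_eq_zero fun b hb => ?_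
    have h1 := hP' a ha
    have h2 := hQ' b hb
    exact if_neg (by omega)
  · rw [AddMonoidAlgebra.coeff_mul]
    rw [Finsupp.sum, Finset.sum_eq_single D]
    · rw [Finsupp.sum, Finset.sum_eq_single E]
      · rw [if_pos rfl]
      · intro b hb hbE
        exact if_neg (fun h => hbE (by omega))
      · intro h
        rw [Finsupp.notMem_support_iff.mp h, mul_zero, ite_self]
    · intro a ha haD
      refine Finset.sum_eq_zero fun b hb => ?_
      have h1 := hP' a ha
      have h2 := hQ' b hb
      exact if_neg (fun h => haD (by omega))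
    · intro h
      refine Finset.sum_eq_zero fun b hb => ?_
      rw [Finsupp.notMem_support_iff.mp h]
      simp

theorem Bdd.pow {D : ℤ} {P : AddMonoidAlgebra R ℤ} (hP : Bdd D P) (k : ℕ) :
    Bdd (k * D) (P ^ k) ∧ (P ^ k).coeff (k * D) = P.coeff D ^ k := by
  induction k with
  | zero =>
    rw [pow_zero, pow_zero, Nat.cast_zero, zero_mul]
    constructor
    · intro d hd
      rw [AddMonoidAlgebra.one_def, AddMonoidAlgebra.coeff_single, Finsupp.single_apply,
        if_neg hd.ne]
    · rw [AddMonoidAlgebra.one_def, AddMonoidAlgebra.coeff_single, Finsupp.single_apply, if_pos rfl]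
  | succ k ih =>
    have h := ih.1.mul hP
    rw [← pow_succ] at h
    have e : ((k + 1 : ℕ) : ℤ) * D = k * D + D := by push_cast; ring
    rw [e]
    exact ⟨h.1, by rw [h.2, ih.2, pow_succ]⟩

/-- Commutators of powers with a constant: the leading coefficient. -/
theorem pow_comm_lead {m D : ℤ} {P C : AddMonoidAlgebra R ℤ} (hP : Bdd m P)
    (hc : ∀ r : R, P.coeff m * r = r * P.coeff m)
    (hQ : Bdd D (P * C - C * P)) (k : ℕ) :
    Bdd (k * m + D) (P ^ (k + 1) * C - C * P ^ (k + 1)) ∧
    (P ^ (k + 1) * C - C * P ^ (k + 1)).coeff (k * m + D) =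
      (k + 1 : ℕ) • (P.coeff m ^ k * (P * C - C * P).coeff D) := by
  induction k with
  | zero =>
    rw [zero_add, pow_one, pow_zero, one_mul, one_smul, Nat.cast_zero, zero_mul, zero_add]
    exact ⟨hQ, rfl⟩
  | succ k ih =>
    have e1 : P ^ (k + 1 + 1) * C - C * P ^ (k + 1 + 1) =
        P * (P ^ (k + 1) * C - C * P ^ (k + 1)) + (P * C - C * P) * P ^ (k + 1) := by
      rw [pow_succ' P (k + 1)]
      noncomm_ring
    have h1 := hP.mul ih.1
    have h2 := hQ.mul (hP.pow (k + 1)).1
    have e2 : m + (k * m + D) = ((k + 1 : ℕ) : ℤ) * m + D := by push_cast; ring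
    have e3 : D + ((k + 1 : ℕ) : ℤ) * m = ((k + 1 : ℕ) : ℤ) * m + D := by ring
    rw [e2] at h1
    rw [e3] at h2
    rw [e1]
    constructor
    · intro d hd
      rw [AddMonoidAlgebra.coeff_add, Finsupp.add_apply, h1.1 d hd, h2.1 d hd, add_zero]
    · rw [AddMonoidAlgebra.coeff_add, Finsupp.add_apply, h1.2, h2.2, ih.2, (hP.pow (k + 1)).2]
      have hc' : ∀ (j : ℕ) (r : R), P.coeff m ^ j * r = r * P.coeff m ^ j := by
        intro j r
        exact (Commute.pow_left (hc r : Commute (P.coeff m) r) j).eq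
      rw [← hc' (k + 1), mul_smul_comm, ← mul_assoc, ← pow_succ', succ_nsmul _ (k + 1)]

end Ring

section Eval

variable {K : Type*} [Field K]

/-- Laurent polynomials over an infinite field which vanish at all units are zero. -/
theorem laurent_zero [Infinite K] (c : ℤ →₀ K)
    (h : ∀ s : Kˣ, c.sum (fun d x => x * ((s ^ d : Kˣ) : K)) = 0) : c = 0 := by
  classical
  obtain ⟨N, hN⟩ : ∃ N : ℕ, ∀ d ∈ c.support, -(N : ℤ) ≤ d := by
    refine ⟨(c.support.sup Int.natAbs), fun d hd => ?_⟩
    have : Int.natAbs d ≤ c.support.sup Int.natAbs := Finset.le_sup hd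
    omega
  set p : Polynomial K := c.sum fun d x => Polynomial.monomial (d + N).toNat x with hp
  have hev : ∀ s : Kˣ, p.eval (s : K) = 0 := by
    intro s
    have e1 : p.eval (s : K) = (s : K) ^ N * c.sum (fun d x => x * ((s ^ d : Kˣ) : K)) := by
      rw [hp, Finsupp.sum, Polynomial.eval_finsetSum, Finsupp.sum, Finset.mul_sum]
      refine Finset.sum_congr rfl fun d hd => ?_
      rw [Polynomial.eval_monomial]
      have h1 := hN d hd
      have h2 : (s : K) ^ (d + N).toNat = (s : K) ^ N * ((s ^ d : Kˣ) : K) := by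
        rw [Units.val_zpow_eq_zpow_val, ← zpow_natCast, ← zpow_natCast, ← zpow_add₀ s.ne_zero]
        congr 1
        omega
      rw [h2]
      ring
    rw [e1, h s, mul_zero]
  have hp0 : p = 0 := by
    have h1 : p * Polynomial.X = 0 := by
      apply Polynomial.funext
      intro x
      by_cases hx : x = 0
      · rw [hx]; simp
      · have := hev (Units.mk0 x hx)
        rw [Units.val_mk0] at this
        rw [Polynomial.eval_mul, this, zero_mul, Polynomial.eval_zero]
    exact (mul_eq_zero.mp h1).resolve_right Polynomial.X_ne_zero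
  ext d0
  rw [Finsupp.zero_apply]
  by_contra hne
  have hd0 : d0 ∈ c.support := Finsupp.mem_support_iff.mpr hne
  have e2 : p.coeff (d0 + N).toNat = c d0 := by
    rw [hp, Finsupp.sum, Polynomial.finsetSum_coeff, Finset.sum_eq_single d0]
    · rw [Polynomial.coeff_monomial, if_pos rfl]
    · intro d hd hdd
      rw [Polynomial.coeff_monomial, if_neg]
      have h1 := hN d hd
      have h2 := hN d0 hd0
      omega
    · intro h; exact absurd hd0 h
  rw [hp0, Polynomial.coeff_zero] at e2
  exact hne e2.symm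

variable {A : Type*} [Ring A] [Algebra K A]

theorem ev_comm (s : Kˣ) (x : A) (y : Multiplicative ℤ) : Commute ((AlgHom.id K A) x)
    ((((algebraMap K A : K →* A).comp (Units.coeHom K)).comp (zpowersHom Kˣ s)) y) :=
  (Algebra.commutes _ x).symm

/-- Evaluation at a unit of `K`. -/
noncomputable def ev (s : Kˣ) : AddMonoidAlgebra A ℤ →ₐ[K] A :=
  AddMonoidAlgebra.liftNCAlgHom (AlgHom.id K A)
    (((algebraMap K A : K →* A).comp (Units.coeHom K)).comp (zpowersHom Kˣ s)) (ev_comm s)

theorem ev_single (s : Kˣ) (d : ℤ) (a : A) :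
    ev s (AddMonoidAlgebra.single d a) = ((s ^ d : Kˣ) : K) • a := by
  unfold ev
  rw [AddMonoidAlgebra.coe_liftNCAlgHom, AddMonoidAlgebra.liftNC_single]
  simp [Algebra.smul_def, Algebra.commutes, zpowersHom_apply]

theorem ev_apply (s : Kˣ) (P : AddMonoidAlgebra A ℤ) :
    ev s P = P.coeff.sum fun d a => ((s ^ d : Kˣ) : K) • a := by
  conv_lhs => rw [← AddMonoidAlgebra.sum_coeff_single P]
  rw [Finsupp.sum, map_sum, Finsupp.sum]
  exact Finset.sum_congr rfl fun d _ => ev_single s d _

theorem ev_zero [Infinite K] {n : ℕ} (Q : AddMonoidAlgebra (Matrix (Fin n) (Fin n) K) ℤ)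
    (h : ∀ s : Kˣ, ev s Q = 0) : Q = 0 := by
  classical
  ext d a b
  rw [AddMonoidAlgebra.coeff_zero, Finsupp.zero_apply, Matrix.zero_apply]
  have h1 : Q.coeff.mapRange (Matrix.entryAddMonoidHom K a b) (map_zero _) = 0 := by
    apply laurent_zero
    intro s
    rw [Finsupp.sum_mapRange_index (fun d => by rw [zero_mul])]
    have e := congrFun (congrFun (h s) a) b
    rw [ev_apply, Finsupp.sum, Matrix.sum_apply, Matrix.zero_apply] at e
    rw [Finsupp.sum, ← e]
    refine Finset.sum_congr rfl fun d _ => ?_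
    rw [Matrix.smul_apply, smul_eq_mul, mul_comm]
    rfl
  have h2 := DFunLike.congr_fun h1 d
  rw [Finsupp.mapRange_apply, Finsupp.zero_apply] at h2
  exact h2

end Eval

section Part

variable {K : Type*} [Field K] {σ : Type*} {n : ℕ}

/-- `f (T ^ w(i) Y_i)`. -/
noncomputable def lp {A : Type*} [Ring A] [Algebra K A] (w : σ → ℤ) (Y : σ → A)
    (f : FreeAlgebra K σ) : AddMonoidAlgebra A ℤ :=
  FreeAlgebra.lift K (fun i => AddMonoidAlgebra.single (w i) (Y i)) f

/-- The part of weight `d` of `f`: the coefficient of `T ^ d` in `f (T ^ w(i) x_i)`. -/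
noncomputable def part (w : σ → ℤ) (d : ℤ) (f : FreeAlgebra K σ) : FreeAlgebra K σ :=
  (lp w (FreeAlgebra.ι K) f).coeff d

theorem lp_coeff {A : Type*} [Ring A] [Algebra K A] (w : σ → ℤ) (Y : σ → A)
    (f : FreeAlgebra K σ) (d : ℤ) : (lp w Y f).coeff d = FreeAlgebra.lift K Y (part w d f) := by
  have e : AddMonoidAlgebra.mapAlgHom ℤ (FreeAlgebra.lift K Y) (lp w (FreeAlgebra.ι K) f) =
      lp w Y f := by
    unfold lp
    rw [lift_map]
    congr 2
    funext i
    rw [AddMonoidAlgebra.mapAlgHom_single, FreeAlgebra.lift_ι_apply]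
  rw [← e, AddMonoidAlgebra.coeff_mapAlgHom]
  rfl

theorem ev_lp {A : Type*} [Ring A] [Algebra K A] (w : σ → ℤ) (Y : σ → A)
    (f : FreeAlgebra K σ) (s : Kˣ) :
    ev s (lp w Y f) = FreeAlgebra.lift K (fun i => ((s ^ w i : Kˣ) : K) • Y i) f := by
  unfold lp
  rw [lift_map]
  congr 2
  funext i
  rw [ev_single]

theorem lp_pow {A : Type*} [Ring A] [Algebra K A] (w : σ → ℤ) (Y : σ → A)
    (f : FreeAlgebra K σ) (k : ℕ) : lp w Y (f ^ k) = lp w Y f ^ k := by
  unfold lp
  rw [map_pow]

/-- Laurent polynomials whose coefficients commute with a constant. -/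
theorem coeff_comm_iff {A : Type*} [Ring A] (P : AddMonoidAlgebra A ℤ) (Z : A) :
    P * AddMonoidAlgebra.single 0 Z = AddMonoidAlgebra.single 0 Z * P ↔
      ∀ d, P.coeff d * Z = Z * P.coeff d := by
  constructor
  · intro h d
    rw [← AddMonoidAlgebra.coeff_mul_single_zero, h, AddMonoidAlgebra.coeff_single_zero_mul]
  · intro h
    ext d
    rw [AddMonoidAlgebra.coeff_mul_single_zero, h, AddMonoidAlgebra.coeff_single_zero_mul]

/-- The parts of a scalar valued polynomial are scalar valued. -/
theorem SV_part [Infinite K] {g : FreeAlgebra K σ} (hg : SV n g) (w : σ → ℤ) (d : ℤ) :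
    SV n (part w d g) := by
  apply SV_of_comm
  intro X Z
  rw [← lp_coeff]
  revert d
  rw [← coeff_comm_iff, ← sub_eq_zero]
  apply ev_zero
  intro s
  rw [map_sub, map_mul, map_mul, ev_lp, ev_single, zpow_zero, Units.val_one, one_smul,
    comm_of_SV hg, sub_self]

/-- The value of `f` is the sum of the values of its parts. -/
theorem sum_parts (w : σ → ℤ) (X : σ → Matrix (Fin n) (Fin n) K) (f : FreeAlgebra K σ) :
    FreeAlgebra.lift K X f = ∑ d ∈ (lp w (FreeAlgebra.ι K) f).coeff.support,
      FreeAlgebra.lift K X (part w d f) := by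
  have e := ev_lp w (FreeAlgebra.ι K) f (1 : Kˣ)
  have e1 : (fun i => (((1 : Kˣ) ^ w i : Kˣ) : K) • FreeAlgebra.ι K i) =
      (FreeAlgebra.ι K : σ → FreeAlgebra K σ) := by
    funext i
    rw [_root_.one_zpow, Units.val_one, one_smul]
  have e2 : FreeAlgebra.lift K (FreeAlgebra.ι K) f = f := by
    have : FreeAlgebra.lift K (FreeAlgebra.ι K : σ → FreeAlgebra K σ) = AlgHom.id K _ := by
      apply FreeAlgebra.hom_ext
      funext i
      simp
    rw [this]; rfl
  rw [e1, e2, ev_apply, Finsupp.sum] at e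
  conv_lhs => rw [← e]
  rw [map_sum]
  refine Finset.sum_congr rfl fun d _ => ?_
  rw [_root_.one_zpow, Units.val_one, one_smul]
  rfl

theorem part_eq_zero (w : σ → ℤ) (f : FreeAlgebra K σ) (d : ℤ)
    (h : d ∉ (lp w (FreeAlgebra.ι K) f).coeff.support) : part w d f = 0 :=
  Finsupp.notMem_support_iff.mp h

/-- If `f` is not scalar valued there is a largest weight whose part is not scalar valued. -/
theorem exists_top (w : σ → ℤ) (f : FreeAlgebra K σ) (h : ¬ SV n f) :
    ∃ D : ℤ, ¬ SV n (part w D f) ∧ ∀ d, D < d → SV n (part w d f) := by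
  classical
  set T := (lp w (FreeAlgebra.ι K) f).coeff.support.filter (fun d => ¬ SV n (part w d f)) with hT
  have hne : T.Nonempty := by
    by_contra hcon
    rw [Finset.not_nonempty_iff_eq_empty, hT, Finset.filter_eq_empty_iff] at hcon
    apply h
    apply SV_of_comm
    intro X Z
    rw [sum_parts w X f, Finset.sum_mul, Finset.mul_sum]
    refine Finset.sum_congr rfl fun d hd => ?_
    exact comm_of_SV (not_not.mp (hcon hd)) X Z
  refine ⟨T.max' hne, (Finset.mem_filter.mp (T.max'_mem hne)).2, fun d hd => ?_⟩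
  by_contra hcon
  have hd2 : d ∈ T := by
    rw [hT, Finset.mem_filter]
    refine ⟨?_, hcon⟩
    by_contra h2
    apply hcon
    rw [part_eq_zero w f d h2]
    exact SV_of_Idt (fun X => map_zero _)
  exact absurd (T.le_max' d hd2) (not_le.mpr hd)

end Part

end Pool.Agent.Q220.NC
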