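import Mathlib
import Pool.Agent.Q220.NC.Part

/-!
The leading part of an `n`-central polynomial with respect to an arbitrary weight is `n`-central.
-/

set_option autoImplicit false

namespace Pool.Agent.Q220.NC

open Matrix Pool.Agent.H552R3.PC Pool.Agent.TH82.NC

variable {K : Type*} [Field K] {σ : Type*} {n : ℕ}

/-- Pointwise form: above a part whose value is not scalar all values vanish, if `n ≠ 0` in `K`. -/
theorem above_zero [Infinite K] (hn : n ≠ 0) (hnK : (n : K) ≠ 0) {f : FreeAlgebra K σ}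
    (h : SV n (f ^ n)) (w : σ → ℤ) {D : ℤ} (hD : ∀ d, D < d → SV n (part w d f))
    (X : σ → Matrix (Fin n) (Fin n) K) (Z : Matrix (Fin n) (Fin n) K)
    (hZ : FreeAlgebra.lift K X (part w D f) * Z ≠ Z * FreeAlgebra.lift K X (part w D f))
    (d : ℤ) (hd : D < d) : FreeAlgebra.lift K X (part w d f) = 0 := by
  classical
  set P := lp w X f with hP
  -- the largest exponent
  by_contra hne
  set T := P.coeff.support.filter (fun e => D < e) with hT
  have hdT : d ∈ T := by
    rw [hT, Finset.mem_filter, Finsupp.mem_support_iff, hP, lp_coeff]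
    exact ⟨hne, hd⟩
  set m := T.max' ⟨d, hdT⟩ with hm
  have hmT : m ∈ T := T.max'_mem _
  have hDm : D < m := (Finset.mem_filter.mp hmT).2
  have hm0 : P.coeff m ≠ 0 := Finsupp.mem_support_iff.mp (Finset.mem_filter.mp hmT).1
  have hPm : Bdd m P := by
    intro e he
    by_contra hcon
    have h1 : e ∈ T := by
      rw [hT, Finset.mem_filter, Finsupp.mem_support_iff]
      exact ⟨hcon, by omega⟩
    exact absurd (T.le_max' e h1) (not_le.mpr he)
  have hc : ∀ r : Matrix (Fin n) (Fin n) K, P.coeff m * r = r * P.coeff m := by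
    intro r
    rw [hP, lp_coeff]
    exact comm_of_SV (hD m hDm) X r
  set C : AddMonoidAlgebra (Matrix (Fin n) (Fin n) K) ℤ := AddMonoidAlgebra.single 0 Z with hC
  have hQc : ∀ e, (P * C - C * P).coeff e = P.coeff e * Z - Z * P.coeff e := by
    intro e
    rw [AddMonoidAlgebra.coeff_sub, Finsupp.sub_apply, hC, AddMonoidAlgebra.coeff_mul_single_zero,
      AddMonoidAlgebra.coeff_single_zero_mul]
  have hQ : Bdd D (P * C - C * P) := by
    intro e he
    rw [hQc, hP, lp_coeff, comm_of_SV (hD e he), sub_self]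
  obtain ⟨k, rfl⟩ : ∃ k, n = k + 1 := ⟨n - 1, by omega⟩
  have h1 := (pow_comm_lead hPm hc hQ k).2
  have h2 : P ^ (k + 1) * C - C * P ^ (k + 1) = 0 := by
    rw [sub_eq_zero, hC, coeff_comm_iff]
    intro e
    rw [hP, ← lp_pow, lp_coeff]
    exact comm_of_SV (SV_part h w e) X Z
  rw [h2, AddMonoidAlgebra.coeff_zero, Finsupp.zero_apply, hQc] at h1
  obtain ⟨c, hcs⟩ := hD m hDm X
  rw [← lp_coeff, ← hP] at hcs
  have hc0 : c ≠ 0 := by
    rintro rfl
    apply hm0
    rw [hcs, map_zero]
  rw [hcs, ← map_pow, sc_mul, ← Nat.cast_smul_eq_nsmul K, smul_smul] at h1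
  have h3 := smul_eq_zero.mp h1.symm
  rcases h3 with h3 | h3
  · exact (mul_ne_zero hnK (pow_ne_zero k hc0)) h3
  · rw [hP, lp_coeff] at h3
    exact hZ (sub_eq_zero.mp h3)

/-- In characteristic different from `n` the parts of larger weight are identities. -/
theorem above_Idt [Infinite K] (hn : n ≠ 0) (hnK : (n : K) ≠ 0) {f : FreeAlgebra K σ}
    (h : SV n (f ^ n)) (w : σ → ℤ) {D : ℤ} (hD0 : ¬ SV n (part w D f))
    (hD : ∀ d, D < d → SV n (part w d f)) (d : ℤ) (hd : D < d) : Idt n (part w d f) := by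
  by_contra hcon
  obtain ⟨X, hX, Z, hZ⟩ := nonscalar_inv _ _ hD0 hcon
  apply hX
  rw [above_zero hn hnK h w hD X Z hZ d hd]
  have : Nonempty (Fin n) := ⟨⟨0, Nat.pos_of_ne_zero hn⟩⟩
  exact Matrix.det_zero

/-- The `n`-th power of the leading part is scalar valued. -/
theorem pow_part_SV [Infinite K] (hn : n.Prime) {f : FreeAlgebra K σ}
    (h : SV n (f ^ n)) (w : σ → ℤ) {D : ℤ} (hD0 : ¬ SV n (part w D f))
    (hD : ∀ d, D < d → SV n (part w d f)) : SV n (part w D f ^ n) := by
  classical
  apply SV_of_comm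
  intro X Z
  set P := lp w X f with hP
  have hPn : ∀ Z : Matrix (Fin n) (Fin n) K, P ^ n * AddMonoidAlgebra.single 0 Z =
      AddMonoidAlgebra.single 0 Z * P ^ n := by
    intro Z
    rw [coeff_comm_iff]
    intro e
    rw [hP, ← lp_pow, lp_coeff]
    exact comm_of_SV (SV_part h w e) X Z
  rw [map_pow, ← lp_coeff, ← hP]
  by_cases hnK : (n : K) = 0
  · -- characteristic `n`
    have hcK : CharP K n := by
      obtain ⟨p, hp⟩ := CharP.exists K
      have h1 : p ∣ n := (CharP.cast_eq_zero_iff K p n).mp hnK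
      rcases (Nat.dvd_prime hn).mp h1 with h2 | h2
      · subst h2
        exact absurd rfl (CharP.char_ne_one K 1)
      · rwa [h2] at hp
    have hfact : Fact n.Prime := ⟨hn⟩
    have hne : NeZero n := ⟨hn.ne_zero⟩
    have : Nonempty (Fin n) := ⟨⟨0, hn.pos⟩⟩
    have hcA : CharP (AddMonoidAlgebra (Matrix (Fin n) (Fin n) K) ℤ) n :=
      charP_of_injective_algebraMap (algebraMap K _).injective n
    set c : AddMonoidAlgebra (Matrix (Fin n) (Fin n) K) ℤ :=
      AddMonoidAlgebra.ofCoeff (P.coeff.filter fun e => D < e) with hc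
    have hcc : ∀ e, c.coeff e = if D < e then P.coeff e else 0 := by
      intro e
      rw [hc, AddMonoidAlgebra.coeff_ofCoeff, Finsupp.filter_apply]
    have hce : ∀ (e : ℤ) (Y : Matrix (Fin n) (Fin n) K), c.coeff e * Y = Y * c.coeff e := by
      intro e Y
      rw [hcc]
      split_ifs with h1
      · rw [hP, lp_coeff]
        exact comm_of_SV (hD e h1) X Y
      · rw [zero_mul, mul_zero]
    have hcall : ∀ Q : AddMonoidAlgebra (Matrix (Fin n) (Fin n) K) ℤ, Commute c Q := by
      intro Q
      have h1 : c = ∑ e ∈ c.coeff.support, AddMonoidAlgebra.single e (c.coeff e) := by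
        conv_lhs => rw [← AddMonoidAlgebra.sum_coeff_single c]
        rfl
      rw [h1]
      refine Commute.sum_left _ _ _ fun e _ => ?_
      exact AddMonoidAlgebra.single_commute (fun m => AddCommute.all _ _) (fun r => hce e r) Q
    set R := P - c with hR
    have hRD : R.coeff D = P.coeff D := by
      rw [hR, AddMonoidAlgebra.coeff_sub, Finsupp.sub_apply, hcc, if_neg (lt_irrefl _), sub_zero]
    have hRB : Bdd D R := by
      intro e he
      rw [hR, AddMonoidAlgebra.coeff_sub, Finsupp.sub_apply, hcc, if_pos he, sub_self]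
    have h1 : P ^ n = c ^ n + R ^ n := by
      rw [← add_pow_char_of_commute _ (hcall R), hR, add_sub_cancel]
    have h2 : R ^ n * AddMonoidAlgebra.single 0 Z = AddMonoidAlgebra.single 0 Z * R ^ n := by
      have h3 : R ^ n = P ^ n - c ^ n := by rw [h1, add_sub_cancel_left]
      rw [h3, sub_mul, mul_sub, hPn, ((hcall _).pow_left n).eq]
    rw [coeff_comm_iff] at h2
    have h3 := h2 (n * D)
    rwa [(hRB.pow n).2, hRD] at h3
  · have hPB : Bdd D P := by
      intro e he
      rw [hP, lp_coeff]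
      exact above_Idt hn.ne_zero hnK h w hD0 hD e he X
    have h2 := hPn Z
    rw [coeff_comm_iff] at h2
    have h3 := h2 (n * D)
    rwa [(hPB.pow n).2] at h3

end Pool.Agent.Q220.NC
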