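import Mathlib
import Pool.Agent.Q220.NC.Face

/-!
From any variables to two variables, and from polynomials to multihomogeneous polynomials.
-/

set_option autoImplicit false

namespace Pool.Agent.Q220.NC

open Matrix Pool.Agent.H552R3.PC Pool.Agent.TH82.NC

variable {K : Type*} [Field K] {σ : Type*} {n : ℕ}

/-- Combinations of words with the property `P`. -/
def Sp (K : Type*) [Field K] {σ : Type*} (P : List σ → Prop) : Submodule K (FreeAlgebra K σ) :=
  Submodule.span K {u | ∃ l : List σ, P l ∧ u = (l.map (FreeAlgebra.ι K)).prod}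

theorem lp_word (w : σ → ℤ) (l : List σ) :
    lp w (FreeAlgebra.ι K) (l.map (FreeAlgebra.ι K)).prod =
      AddMonoidAlgebra.single (l.map w).sum (l.map (FreeAlgebra.ι K)).prod := by
  unfold lp
  induction l with
  | nil =>
    rw [List.map_nil, List.prod_nil, map_one, List.map_nil, List.sum_nil,
      AddMonoidAlgebra.one_def]
  | cons a l ih =>
    rw [List.map_cons, List.prod_cons, map_mul, ih, FreeAlgebra.lift_ι_apply,
      AddMonoidAlgebra.single_mul_single, List.map_cons, List.sum_cons]

theorem part_word (w : σ → ℤ) (d : ℤ) (l : List σ) :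
    part w d (l.map (FreeAlgebra.ι K)).prod =
      if (l.map w).sum = d then (l.map (FreeAlgebra.ι K)).prod else 0 := by
  classical
  unfold part
  rw [lp_word, AddMonoidAlgebra.coeff_single, Finsupp.single_apply]

theorem part_add (w : σ → ℤ) (d : ℤ) (f g : FreeAlgebra K σ) :
    part w d (f + g) = part w d f + part w d g := by
  unfold part lp
  rw [map_add, AddMonoidAlgebra.coeff_add, Finsupp.add_apply]

theorem part_zero (w : σ → ℤ) (d : ℤ) : part w d (0 : FreeAlgebra K σ) = 0 := by
  unfold part lp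
  rw [map_zero, AddMonoidAlgebra.coeff_zero, Finsupp.zero_apply]

theorem part_smul (w : σ → ℤ) (d : ℤ) (c : K) (f : FreeAlgebra K σ) :
    part w d (c • f) = c • part w d f := by
  unfold part lp
  rw [map_smul, AddMonoidAlgebra.coeff_smul, Finsupp.smul_apply]

theorem part_Sp (w : σ → ℤ) (d : ℤ) {P : List σ → Prop} {f : FreeAlgebra K σ} (hf : f ∈ Sp K P) :
    part w d f ∈ Sp K (fun l => P l ∧ (l.map w).sum = d) := by
  unfold Sp at hf
  induction hf using Submodule.span_induction with
  | mem x hx =>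
    obtain ⟨l, hl, rfl⟩ := hx
    rw [part_word]
    split_ifs with h
    · exact Submodule.subset_span ⟨l, ⟨hl, h⟩, rfl⟩
    · exact Submodule.zero_mem _
  | zero => rw [part_zero]; exact Submodule.zero_mem _
  | add x y _ _ hx hy => rw [part_add]; exact Submodule.add_mem _ hx hy
  | smul c x _ hx => rw [part_smul]; exact Submodule.smul_mem _ c hx

theorem mem_Sp_true (f : FreeAlgebra K σ) : f ∈ Sp K (fun _ : List σ => True) := by
  induction f using FreeAlgebra.induction with
  | grade0 c =>
    rw [Algebra.algebraMap_eq_smul_one]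
    exact Submodule.smul_mem _ c (Submodule.subset_span ⟨[], trivial, by simp⟩)
  | grade1 i => exact Submodule.subset_span ⟨[i], trivial, by simp⟩
  | mul a b ha hb =>
    unfold Sp at ha hb ⊢
    have h := Submodule.mul_mem_mul ha hb
    rw [Submodule.span_mul_span] at h
    refine Submodule.span_mono ?_ h
    rintro x ⟨u, ⟨l, -, rfl⟩, v, ⟨l', -, rfl⟩, rfl⟩
    exact ⟨l ++ l', trivial, by simp⟩
  | add a b ha hb => exact Submodule.add_mem _ ha hb

theorem Sp_mono {P Q : List σ → Prop} (h : ∀ l, P l → Q l) : Sp K P ≤ Sp K Q :=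
  Submodule.span_mono (by rintro x ⟨l, hl, rfl⟩; exact ⟨l, h l hl, rfl⟩)

/-- The number of letters `i`, as a weight. -/
def cw [DecidableEq σ] (i : σ) : σ → ℤ := fun j => if j = i then 1 else 0

theorem sum_cw [DecidableEq σ] (i : σ) (l : List σ) : (l.map (cw i)).sum = (l.count i : ℤ) := by
  induction l with
  | nil => simp
  | cons a l ih =>
    rw [List.map_cons, List.sum_cons, ih, List.count_cons]
    unfold cw
    by_cases h : a = i
    · subst h; simp [add_comm]
    · simp [h]

/-- Two matrices which generate all matrices. -/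
noncomputable def gn (K : Type*) [Field K] (n : ℕ) [NeZero n] : Fin 2 → Matrix (Fin n) (Fin n) K :=
  ![Matrix.of fun i j => if j = i + 1 then 1 else 0, Matrix.single 0 0 1]

theorem gn_pow (n : ℕ) [NeZero n] (k : ℕ) : (gn K n 0) ^ k =
    Matrix.of fun i j => if j = i + (k • (1 : Fin n)) then 1 else 0 := by
  induction k with
  | zero =>
    ext i j
    rw [pow_zero, Matrix.one_apply, Matrix.of_apply, zero_nsmul, add_zero]
    simp only [eq_comm]
  | succ k ih =>
    ext i j
    rw [pow_succ, ih, Matrix.mul_apply]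
    simp only [Matrix.of_apply, gn, Matrix.cons_val_zero]
    rw [Finset.sum_eq_single (i + k • (1 : Fin n))]
    · rw [if_pos rfl, one_mul, succ_nsmul, add_assoc]
    · intro b _ hb
      rw [if_neg hb, zero_mul]
    · intro h; exact absurd (Finset.mem_univ _) h

theorem gn_single (n : ℕ) [NeZero n] (i j : Fin n) :
    (gn K n 0) ^ (((-i : Fin n) : ℕ)) * gn K n 1 * (gn K n 0) ^ (j : ℕ) = Matrix.single i j 1 := by
  ext a b
  rw [gn_pow, gn_pow, val_nsmul_one, val_nsmul_one]
  rw [Matrix.mul_apply, Finset.sum_eq_single 0]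
  · rw [Matrix.mul_apply, Finset.sum_eq_single 0]
    · simp only [Matrix.of_apply, gn, Matrix.cons_val_one, Matrix.single_apply, zero_add]
      by_cases h1 : i = a
      · subst h1
        by_cases h2 : j = b
        · subst h2; simp
        · simp [h2, Ne.symm h2]
      · have h3 : ¬ (0 : Fin n) = a + -i := by
          intro h4
          apply h1
          have := congrArg (fun x => x + i) h4
          simpa using this
        simp [h1, h3]
    · intro c _ hc
      simp [gn, hc.symm]
    · intro h; exact absurd (Finset.mem_univ _) h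
  · intro c _ hc
    rw [Matrix.mul_apply, Finset.sum_eq_zero, zero_mul]
    intro e _
    simp [gn, hc.symm]
  · intro h; exact absurd (Finset.mem_univ _) h

theorem gn_surj (n : ℕ) [NeZero n] (Y : Matrix (Fin n) (Fin n) K) :
    ∃ g : FreeAlgebra K (Fin 2), FreeAlgebra.lift K (gn K n) g = Y := by
  refine ⟨∑ i, ∑ j, Y i j • ((FreeAlgebra.ι K 0) ^ (((-i : Fin n) : ℕ)) * FreeAlgebra.ι K 1 *
    (FreeAlgebra.ι K 0) ^ (j : ℕ)), ?_⟩
  simp only [map_sum, map_smul, map_mul, map_pow, FreeAlgebra.lift_ι_apply, gn_single]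
  conv_rhs => rw [Matrix.matrix_eq_sum_single Y]
  refine Finset.sum_congr rfl fun i _ => Finset.sum_congr rfl fun j _ => ?_
  rw [Matrix.smul_single, smul_eq_mul, mul_one]

/-- Two variables are enough. -/
theorem to_two [NeZero n] {f : FreeAlgebra K σ} (h : SV n (f ^ n)) (hns : ¬ SV n f) :
    ∃ g : FreeAlgebra K (Fin 2), SV n (g ^ n) ∧ ¬ SV n g := by
  unfold SV at hns
  push Not at hns
  obtain ⟨X0, hX0⟩ := hns
  choose G hG using fun i => gn_surj n (X0 i)
  refine ⟨FreeAlgebra.lift K G f, ?_, ?_⟩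
  · intro X
    rw [← map_pow, lift_map]
    exact h _
  · intro hcon
    obtain ⟨c, hc⟩ := hcon (gn K n)
    rw [lift_map] at hc
    have e : (fun i => FreeAlgebra.lift K (gn K n) (G i)) = X0 := funext hG
    rw [e] at hc
    exact hX0 c hc

/-- Bihomogeneous polynomials in two variables are enough. -/
theorem to_bihom [Infinite K] (hn : n.Prime) {f : FreeAlgebra K σ} (h : SV n (f ^ n))
    (hns : ¬ SV n f) :
    ∃ (e : Fin 2 → ℕ) (g : FreeAlgebra K (Fin 2)), g ∈ Sp K (fun l => ∀ i, l.count i = e i) ∧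
      SV n (g ^ n) ∧ ¬ SV n g := by
  have : NeZero n := ⟨hn.ne_zero⟩
  obtain ⟨g, hg1, hg2⟩ := to_two h hns
  obtain ⟨D, hD1, hD2⟩ := exists_top (cw 0) g hg2
  have h1 := pow_part_SV hn hg1 (cw 0) hD1 hD2
  have h2 := part_Sp (cw 0) D (mem_Sp_true g)
  set g1 := part (cw 0) D g with hg1d
  obtain ⟨E, hE1, hE2⟩ := exists_top (cw 1) g1 hD1
  have h3 := pow_part_SV hn h1 (cw 1) hE1 hE2
  have h4 := part_Sp (cw 1) E h2
  refine ⟨![D.toNat, E.toNat], part (cw 1) E g1, Sp_mono ?_ h4, h3, hE1⟩
  rintro l ⟨⟨-, h5⟩, h6⟩ i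
  rw [sum_cw] at h5 h6
  fin_cases i
  · change l.count 0 = D.toNat
    omega
  · change l.count 1 = E.toNat
    omega

end Pool.Agent.Q220.NC
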