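import Mathlib
import Pool.Agent.Q220.NC.Fam

/-!
The families `f (x_i + T u_i(x))`: multidegrees of the coefficients, invariance of `n`-central
polynomials of minimal degree.
-/

set_option autoImplicit false

namespace Pool.Agent.Q220.NC

open Matrix Pool.Agent.H552R3.PC Pool.Agent.TH82.NC

variable {K : Type*} [Field K] {σ : Type*} [DecidableEq σ] {n : ℕ}

/-- Polynomials all of whose words have multidegree `m`. -/
def Md (K : Type*) [Field K] {σ : Type*} [DecidableEq σ] (m : σ → ℤ) :
    Submodule K (FreeAlgebra K σ) := Sp K (fun l => ∀ i, (l.count i : ℤ) = m i)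

theorem Md_mul {m m' : σ → ℤ} {f g : FreeAlgebra K σ} (hf : f ∈ Md K m) (hg : g ∈ Md K m') :
    f * g ∈ Md K (fun i => m i + m' i) := by
  have h := Submodule.mul_mem_mul hf hg
  unfold Md Sp at h
  rw [Submodule.span_mul_span] at h
  refine Submodule.span_mono ?_ h
  rintro x ⟨u, ⟨l, hl, rfl⟩, v, ⟨l', hl', rfl⟩, rfl⟩
  refine ⟨l ++ l', fun i => ?_, by simp⟩
  rw [List.count_append]
  push_cast
  rw [hl i, hl' i]

theorem Md_one : (1 : FreeAlgebra K σ) ∈ Md K (fun _ => 0) :=
  Submodule.subset_span ⟨[], fun i => by simp, by simp⟩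

theorem Md_ι (i : σ) : FreeAlgebra.ι K i ∈ Md K (fun j => if j = i then 1 else 0) := by
  refine Submodule.subset_span ⟨[i], fun j => ?_, by simp⟩
  change ((List.count j [i] : ℕ) : ℤ) = if j = i then 1 else 0
  by_cases h : j = i
  · subst h; simp
  · rw [if_neg h, List.count_singleton]
    simp [Ne.symm h]

theorem Md_pow (i : σ) (k : ℕ) :
    (FreeAlgebra.ι K i) ^ k ∈ Md K (fun j => if j = i then (k : ℤ) else 0) := by
  induction k with
  | zero =>
    rw [pow_zero]
    have h := Md_one (K := K) (σ := σ)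
    have e : (fun j : σ => if j = i then ((0 : ℕ) : ℤ) else 0) = fun _ => 0 := by
      funext j; simp
    rw [e]
    exact h
  | succ k ih =>
    rw [pow_succ]
    have h := Md_mul ih (Md_ι (K := K) i)
    have e : (fun j : σ => if j = i then ((k + 1 : ℕ) : ℤ) else 0) =
        fun j => (if j = i then (k : ℤ) else 0) + (if j = i then 1 else 0) := by
      funext j; split_ifs <;> simp
    rw [e]
    exact h

/-- The substitution `x_i ↦ x_i + T u_i`. -/
noncomputable def sb (u : σ → FreeAlgebra K σ) :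
    FreeAlgebra K σ →ₐ[K] AddMonoidAlgebra (FreeAlgebra K σ) ℤ :=
  FreeAlgebra.lift K (fun i => AddMonoidAlgebra.single 0 (FreeAlgebra.ι K i) +
    AddMonoidAlgebra.single 1 (u i))

/-- The family `P` starts with `g`, and its coefficients have the multidegrees `e - d v`. -/
def Gd (e v : σ → ℤ) (P : AddMonoidAlgebra (FreeAlgebra K σ) ℤ) (g : FreeAlgebra K σ) : Prop :=
  (∀ d < 0, P.coeff d = 0) ∧ P.coeff 0 = g ∧ ∀ d, P.coeff d ∈ Md K (fun i => e i - d * v i)

theorem Gd_word {v : σ → ℤ} {u : σ → FreeAlgebra K σ}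
    (hu : ∀ i, u i ∈ Md K (fun j => (if j = i then 1 else 0) - v j)) (l : List σ) :
    Gd (fun i => (l.count i : ℤ)) v (sb u (l.map (FreeAlgebra.ι K)).prod)
      (l.map (FreeAlgebra.ι K)).prod := by
  induction l with
  | nil =>
    rw [List.map_nil, List.prod_nil, map_one, AddMonoidAlgebra.one_def]
    refine ⟨fun d hd => ?_, ?_, fun d => ?_⟩
    · rw [AddMonoidAlgebra.coeff_single, Finsupp.single_apply, if_neg hd.ne']
    · rw [AddMonoidAlgebra.coeff_single, Finsupp.single_apply, if_pos rfl]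
    · rw [AddMonoidAlgebra.coeff_single, Finsupp.single_apply]
      split_ifs with h
      · subst h
        have h1 := Md_one (K := K) (σ := σ)
        simpa using h1
      · exact Submodule.zero_mem _
  | cons a l ih =>
    obtain ⟨h1, h2, h3⟩ := ih
    have e1 : sb u ((a :: l).map (FreeAlgebra.ι K)).prod =
        (AddMonoidAlgebra.single 0 (FreeAlgebra.ι K a) + AddMonoidAlgebra.single 1 (u a)) *
          sb u (l.map (FreeAlgebra.ι K)).prod := by
      rw [List.map_cons, List.prod_cons, map_mul]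
      congr 1
      unfold sb
      rw [FreeAlgebra.lift_ι_apply]
    have e2 : ∀ d, (sb u ((a :: l).map (FreeAlgebra.ι K)).prod).coeff d =
        FreeAlgebra.ι K a * (sb u (l.map (FreeAlgebra.ι K)).prod).coeff d +
          u a * (sb u (l.map (FreeAlgebra.ι K)).prod).coeff (d - 1) := by
      intro d
      rw [e1, add_mul, AddMonoidAlgebra.coeff_add, Finsupp.add_apply,
        AddMonoidAlgebra.coeff_single_zero_mul]
      congr 1
      rw [AddMonoidAlgebra.coeff_single_mul_apply]
      congr 2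
      ring
    refine ⟨fun d hd => ?_, ?_, fun d => ?_⟩
    · rw [e2, h1 d hd, h1 (d - 1) (by omega), mul_zero, mul_zero, add_zero]
    · rw [e2, h2, h1 (0 - 1) (by omega), mul_zero, add_zero, List.map_cons, List.prod_cons]
    · rw [e2]
      refine Submodule.add_mem _ ?_ ?_
      · have h4 := Md_mul (Md_ι (K := K) a) (h3 d)
        have e3 : (fun i => (if i = a then (1 : ℤ) else 0) + ((l.count i : ℤ) - d * v i)) =
            fun i => (((a :: l).count i : ℕ) : ℤ) - d * v i := by
          funext i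
          rw [List.count_cons]
          by_cases h : i = a
          · subst h; simp; ring
          · simp [h, Ne.symm h]
        rw [e3] at h4
        exact h4
      · have h4 := Md_mul (hu a) (h3 (d - 1))
        have e3 : (fun i => (if i = a then (1 : ℤ) else 0) - v i +
            ((l.count i : ℤ) - (d - 1) * v i)) =
            fun i => (((a :: l).count i : ℕ) : ℤ) - d * v i := by
          funext i
          rw [List.count_cons]
          by_cases h : i = a
          · subst h; simp; ring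
          · simp [h, Ne.symm h]; ring
        rw [e3] at h4
        exact h4

theorem Gd_of {e : σ → ℤ} {v : σ → ℤ} {u : σ → FreeAlgebra K σ}
    (hu : ∀ i, u i ∈ Md K (fun j => (if j = i then 1 else 0) - v j)) {f : FreeAlgebra K σ}
    (hf : f ∈ Md K e) : Gd e v (sb u f) f := by
  unfold Md Sp at hf
  induction hf using Submodule.span_induction with
  | mem x hx =>
    obtain ⟨l, hl, rfl⟩ := hx
    have h := Gd_word hu l
    have e1 : (fun i => (l.count i : ℤ)) = e := funext hl
    rw [e1] at h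
    exact h
  | zero =>
    rw [map_zero]
    refine ⟨fun d _ => ?_, ?_, fun d => ?_⟩
    · rw [AddMonoidAlgebra.coeff_zero, Finsupp.zero_apply]
    · rw [AddMonoidAlgebra.coeff_zero, Finsupp.zero_apply]
    · rw [AddMonoidAlgebra.coeff_zero, Finsupp.zero_apply]
      exact Submodule.zero_mem _
  | add x y _ _ hx hy =>
    rw [map_add]
    refine ⟨fun d hd => ?_, ?_, fun d => ?_⟩
    · rw [AddMonoidAlgebra.coeff_add, Finsupp.add_apply, hx.1 d hd, hy.1 d hd, add_zero]
    · rw [AddMonoidAlgebra.coeff_add, Finsupp.add_apply, hx.2.1, hy.2.1]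
    · rw [AddMonoidAlgebra.coeff_add, Finsupp.add_apply]
      exact Submodule.add_mem _ (hx.2.2 d) (hy.2.2 d)
  | smul c x _ hx =>
    rw [map_smul]
    refine ⟨fun d hd => ?_, ?_, fun d => ?_⟩
    · rw [AddMonoidAlgebra.coeff_smul, Finsupp.smul_apply, hx.1 d hd, smul_zero]
    · rw [AddMonoidAlgebra.coeff_smul, Finsupp.smul_apply, hx.2.1]
    · rw [AddMonoidAlgebra.coeff_smul, Finsupp.smul_apply]
      exact Submodule.smul_mem _ c (hx.2.2 d)

/-- If there is no `n`-central polynomial of multidegree `e - d v`, `d ≥ 1`, then the higher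
coefficients of the family are scalar valued. -/
theorem higher_SV [Infinite K] (hn : n.Prime) {e : σ → ℤ} {v : σ → ℤ} {u : σ → FreeAlgebra K σ}
    (hu : ∀ i, u i ∈ Md K (fun j => (if j = i then 1 else 0) - v j)) {f : FreeAlgebra K σ}
    (hf : f ∈ Md K e) (h : SV n (f ^ n)) (hns : ¬ SV n f)
    (hmin : ∀ d : ℤ, 0 < d → ∀ g ∈ Md K (fun i => e i - d * v i), SV n (g ^ n) → SV n g) :
    ∀ d : ℤ, 0 < d → SV n ((sb u f).coeff d) ∧ ((n : K) ≠ 0 → Idt n ((sb u f).coeff d)) := by
  obtain ⟨-, h2, h3⟩ := Gd_of hu hf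
  have hF : ∀ d, SV n ((sb u f ^ n).coeff d) := by
    intro d
    rw [← map_pow]
    exact SV_fam h _ d
  have h4 : ¬ SV n ((sb u f).coeff 0) := by rw [h2]; exact hns
  obtain ⟨D, hD1, hD2, hD3⟩ := fam_top (sb u f) h4
  have h5 := fam_pow_SV hn hF hD2 hD3
  have hD0 : D = 0 := by
    by_contra hne
    exact hD2 (hmin D (by omega) _ (h3 D) h5)
  subst hD0
  intro d hd
  exact ⟨hD3 d hd, fun hnK => fam_above_Idt hn.ne_zero hnK hF hD2 hD3 d hd⟩

omit [DecidableEq σ] in
/-- Values of the family. -/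
theorem ev_sb (u : σ → FreeAlgebra K σ) (f : FreeAlgebra K σ) (s : Kˣ)
    (X : σ → Matrix (Fin n) (Fin n) K) :
    ev s (vl X (sb u f)) =
      FreeAlgebra.lift K (fun i => X i + (s : K) • FreeAlgebra.lift K X (u i)) f := by
  unfold sb
  rw [lift_map, lift_map]
  congr 2
  funext i
  rw [map_add, map_add, vl_single, vl_single, ev_single, ev_single, zpow_zero, zpow_one,
    Units.val_one, one_smul, FreeAlgebra.lift_ι_apply]

/-- The invariance of `f` under the substitution `x_i ↦ x_i + s u_i`. -/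
theorem invariant [Infinite K] (hn : n.Prime) {e : σ → ℤ} {v : σ → ℤ} {u : σ → FreeAlgebra K σ}
    (hu : ∀ i, u i ∈ Md K (fun j => (if j = i then 1 else 0) - v j)) {f : FreeAlgebra K σ}
    (hf : f ∈ Md K e) (h : SV n (f ^ n)) (hns : ¬ SV n f)
    (hmin : ∀ d : ℤ, 0 < d → ∀ g ∈ Md K (fun i => e i - d * v i), SV n (g ^ n) → SV n g)
    (s : K) (X : σ → Matrix (Fin n) (Fin n) K) :
    (∀ Z : Matrix (Fin n) (Fin n) K,
      (FreeAlgebra.lift K (fun i => X i + s • FreeAlgebra.lift K X (u i)) f -
        FreeAlgebra.lift K X f) * Z =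
      Z * (FreeAlgebra.lift K (fun i => X i + s • FreeAlgebra.lift K X (u i)) f -
        FreeAlgebra.lift K X f)) ∧
    ((n : K) ≠ 0 → FreeAlgebra.lift K (fun i => X i + s • FreeAlgebra.lift K X (u i)) f =
      FreeAlgebra.lift K X f) := by
  classical
  by_cases hs : s = 0
  · subst hs
    simp
  obtain ⟨h1, h2, h3⟩ := Gd_of hu hf
  have h4 := higher_SV hn hu hf h hns hmin
  obtain ⟨s, rfl⟩ : ∃ t : Kˣ, (t : K) = s := ⟨Units.mk0 s hs, rfl⟩
  rw [← ev_sb, ev_apply]
  set Q := vl X (sb u f) with hQ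
  have e0 : Q.coeff 0 = FreeAlgebra.lift K X f := by rw [hQ, vl_coeff, h2]
  have e1 : (Q.coeff.sum fun d a => ((s ^ d : Kˣ) : K) • a) - FreeAlgebra.lift K X f =
      ∑ d ∈ Q.coeff.support.erase 0, ((s ^ d : Kˣ) : K) • Q.coeff d := by
    rw [← e0, Finsupp.sum]
    by_cases h0 : (0 : ℤ) ∈ Q.coeff.support
    · rw [← Finset.add_sum_erase _ _ h0, zpow_zero, Units.val_one, one_smul, add_sub_cancel_left]
    · rw [Finset.erase_eq_of_notMem h0, Finsupp.notMem_support_iff.mp h0, sub_zero]
  have hneg : ∀ d ∈ Q.coeff.support.erase 0, 0 < d := by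
    intro d hd
    obtain ⟨hd0, hd1⟩ := Finset.mem_erase.mp hd
    rcases lt_trichotomy d 0 with h5 | h5 | h5
    · exfalso
      apply Finsupp.mem_support_iff.mp hd1
      rw [hQ, vl_coeff, h1 d h5, map_zero]
    · exact absurd h5 hd0
    · exact h5
  constructor
  · intro Z
    rw [e1, Finset.sum_mul, Finset.mul_sum]
    refine Finset.sum_congr rfl fun d hd => ?_
    rw [smul_mul_assoc, mul_smul_comm, hQ, vl_coeff, comm_of_SV (h4 d (hneg d hd)).1]
  · intro hnK
    rw [← sub_eq_zero, e1]
    refine Finset.sum_eq_zero fun d hd => ?_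
    rw [hQ, vl_coeff, (h4 d (hneg d hd)).2 hnK X, smul_zero]

end Pool.Agent.Q220.NC
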