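import Mathlib
import Pool.Agent.Q220.NC.Inv

/-!
`n`-central polynomials in two variables of lexicographically minimal bidegree.
-/

set_option autoImplicit false

namespace Pool.Agent.Q220.NC

open Matrix Pool.Agent.H552R3.PC Pool.Agent.TH82.NC

variable {K : Type*} [Field K] {n : ℕ}

theorem Md_neg {σ : Type*} [DecidableEq σ] {m : σ → ℤ} (i : σ) (hi : m i < 0)
    {g : FreeAlgebra K σ} (hg : g ∈ Md K m) : g = 0 := by
  unfold Md Sp at hg
  have e : {u : FreeAlgebra K σ | ∃ l : List σ, (∀ i, (l.count i : ℤ) = m i) ∧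
      u = (l.map (FreeAlgebra.ι K)).prod} = ∅ := by
    rw [Set.eq_empty_iff_forall_notMem]
    rintro u ⟨l, hl, -⟩
    have := hl i
    omega
  rw [e, Submodule.span_empty, Submodule.mem_bot] at hg
  exact hg

/-- An `n`-central polynomial with minimal degree in the second variable and then minimal degree in
the first. -/
theorem exists_min [Infinite K] (hn : n.Prime) {σ : Type*} {f : FreeAlgebra K σ}
    (h : SV n (f ^ n)) (hns : ¬ SV n f) :
    ∃ (a b : ℕ) (g : FreeAlgebra K (Fin 2)), g ∈ Md K ![(a : ℤ), (b : ℤ)] ∧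
      SV n (g ^ n) ∧ ¬ SV n g ∧
      (∀ a' b' : ℤ, b' < b → ∀ g' ∈ Md K ![a', b'], SV n (g' ^ n) → SV n g') ∧
      (∀ a' : ℤ, a' < a → ∀ g' ∈ Md K ![a', (b : ℤ)], SV n (g' ^ n) → SV n g') := by
  classical
  obtain ⟨e, g, hg1, hg2, hg3⟩ := to_bihom hn h hns
  have hg1' : g ∈ Md K ![((e 0 : ℕ) : ℤ), ((e 1 : ℕ) : ℤ)] := by
    refine Sp_mono ?_ hg1
    intro l hl i
    rw [hl i]
    fin_cases i <;> rfl
  have hB : ∃ b : ℕ, ∃ (a : ℕ) (g : FreeAlgebra K (Fin 2)), g ∈ Md K ![(a : ℤ), (b : ℤ)] ∧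
      SV n (g ^ n) ∧ ¬ SV n g := ⟨e 1, e 0, g, hg1', hg2, hg3⟩
  have hA := Nat.find_spec hB
  obtain ⟨g, h1, h2, h3⟩ := Nat.find_spec hA
  refine ⟨Nat.find hA, Nat.find hB, g, h1, h2, h3, ?_, ?_⟩
  · intro a' b' hb' g' hg' hp
    by_contra hcon
    rcases lt_or_ge a' 0 with ha | ha
    · rw [Md_neg 0 (by simpa using ha) hg'] at hcon
      exact hcon (SV_of_Idt fun X => map_zero _)
    rcases lt_or_ge b' 0 with hb | hb
    · rw [Md_neg 1 (by simpa using hb) hg'] at hcon
      exact hcon (SV_of_Idt fun X => map_zero _)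
    lift a' to ℕ using ha
    lift b' to ℕ using hb
    exact Nat.find_min hB (by exact_mod_cast hb') ⟨a', g', hg', hp, hcon⟩
  · intro a' ha' g' hg' hp
    by_contra hcon
    rcases lt_or_ge a' 0 with ha | ha
    · rw [Md_neg 0 (by simpa using ha) hg'] at hcon
      exact hcon (SV_of_Idt fun X => map_zero _)
    lift a' to ℕ using ha
    exact Nat.find_min hA (by exact_mod_cast ha') ⟨g', hg', hp, hcon⟩

/-- The invariance of `f` under `y ↦ y + g(x)` modulo scalars. -/
def InvY (n : ℕ) (f : FreeAlgebra K (Fin 2)) : Prop :=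
  ∀ (X Y Z : Matrix (Fin n) (Fin n) K) (g : Polynomial K),
    (FreeAlgebra.lift K ![X, Y + Polynomial.aeval X g] f - FreeAlgebra.lift K ![X, Y] f) * Z =
      Z * (FreeAlgebra.lift K ![X, Y + Polynomial.aeval X g] f - FreeAlgebra.lift K ![X, Y] f)

theorem inv_y [Infinite K] (hn : n.Prime) {a b : ℕ} {f : FreeAlgebra K (Fin 2)}
    (hf : f ∈ Md K ![(a : ℤ), (b : ℤ)]) (h : SV n (f ^ n)) (hns : ¬ SV n f)
    (hmin : ∀ a' b' : ℤ, b' < b → ∀ g' ∈ Md K ![a', b'], SV n (g' ^ n) → SV n g') :
    InvY n f ∧ ((n : K) ≠ 0 → ∀ (X Y : Matrix (Fin n) (Fin n) K) (g : Polynomial K),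
      FreeAlgebra.lift K ![X, Y + Polynomial.aeval X g] f = FreeAlgebra.lift K ![X, Y] f) := by
  have key : ∀ (k : ℕ) (s : K) (X Y : Matrix (Fin n) (Fin n) K),
      (∀ Z : Matrix (Fin n) (Fin n) K,
      (FreeAlgebra.lift K ![X, Y + Polynomial.aeval X (Polynomial.monomial k s)] f -
        FreeAlgebra.lift K ![X, Y] f) * Z =
      Z * (FreeAlgebra.lift K ![X, Y + Polynomial.aeval X (Polynomial.monomial k s)] f -
        FreeAlgebra.lift K ![X, Y] f)) ∧
      ((n : K) ≠ 0 → FreeAlgebra.lift K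
        ![X, Y + Polynomial.aeval X (Polynomial.monomial k s)] f =
          FreeAlgebra.lift K ![X, Y] f) := by
    intro k s X Y
    have h1 := invariant hn (e := ![(a : ℤ), (b : ℤ)]) (v := ![-(k : ℤ), 1])
      (u := ![0, (FreeAlgebra.ι K 0) ^ k]) ?_ hf h hns ?_ s ![X, Y]
    · have e1 : (fun i => (![X, Y] : Fin 2 → Matrix (Fin n) (Fin n) K) i +
          s • FreeAlgebra.lift K ![X, Y]
            ((![0, (FreeAlgebra.ι K 0) ^ k] : Fin 2 → FreeAlgebra K (Fin 2)) i)) =
          ![X, Y + Polynomial.aeval X (Polynomial.monomial k s)] := by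
        funext i
        fin_cases i
        · simp
        · simp [Polynomial.aeval_monomial, Algebra.smul_def]
      rw [e1] at h1
      exact h1
    · intro i
      fin_cases i
      · exact Submodule.zero_mem _
      · have h2 := Md_pow (K := K) (0 : Fin 2) k
        have e1 : (fun j : Fin 2 => if j = 0 then (k : ℤ) else 0) =
            fun j => (if j = 1 then 1 else 0) - (![-(k : ℤ), 1] : Fin 2 → ℤ) j := by
          funext j
          fin_cases j <;> simp
        rw [e1] at h2
        exact h2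
    · intro d hd g hg hp
      have e1 : (fun i => (![(a : ℤ), (b : ℤ)] : Fin 2 → ℤ) i -
          d * (![-(k : ℤ), 1] : Fin 2 → ℤ) i) = ![(a : ℤ) + d * k, (b : ℤ) - d] := by
        funext j
        fin_cases j <;> simp
      rw [e1] at hg
      exact hmin _ _ (by omega) g hg hp
  constructor
  · intro X Y Z g
    induction g using Polynomial.induction_on' generalizing Y with
    | add p q hp hq =>
      have h1 := hp Y
      have h2 := hq (Y + Polynomial.aeval X p)
      rw [map_add, ← add_assoc]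
      have e1 : ∀ A B C : Matrix (Fin n) (Fin n) K, (A - B) * Z = Z * (A - B) →
          (B - C) * Z = Z * (B - C) → (A - C) * Z = Z * (A - C) := by
        intro A B C h3 h4
        have : A - C = (A - B) + (B - C) := by abel
        rw [this, add_mul, mul_add, h3, h4]
      exact e1 _ _ _ h2 h1
    | monomial k s => exact (key k s X Y).1 Z
  · intro hnK X Y g
    induction g using Polynomial.induction_on' generalizing Y with
    | add p q hp hq =>
      rw [map_add, ← add_assoc, hq, hp]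
    | monomial k s => exact (key k s X Y).2 hnK

theorem inv_x [Infinite K] (hn : n.Prime) {a b : ℕ} {f : FreeAlgebra K (Fin 2)}
    (hf : f ∈ Md K ![(a : ℤ), (b : ℤ)]) (h : SV n (f ^ n)) (hns : ¬ SV n f)
    (hmin : ∀ a' : ℤ, a' < a → ∀ g' ∈ Md K ![a', (b : ℤ)], SV n (g' ^ n) → SV n g')
    (X Y : Matrix (Fin n) (Fin n) K) (s : K) :
    (∀ Z : Matrix (Fin n) (Fin n) K,
      (FreeAlgebra.lift K ![X + Matrix.scalar (Fin n) s, Y] f -
        FreeAlgebra.lift K ![X, Y] f) * Z =
      Z * (FreeAlgebra.lift K ![X + Matrix.scalar (Fin n) s, Y] f -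
        FreeAlgebra.lift K ![X, Y] f)) ∧
      ((n : K) ≠ 0 → FreeAlgebra.lift K ![X + Matrix.scalar (Fin n) s, Y] f =
          FreeAlgebra.lift K ![X, Y] f) := by
  have h1 := invariant hn (e := ![(a : ℤ), (b : ℤ)]) (v := ![1, 0])
    (u := ![1, 0]) ?_ hf h hns ?_ s ![X, Y]
  · have e1 : (fun i => (![X, Y] : Fin 2 → Matrix (Fin n) (Fin n) K) i +
        s • FreeAlgebra.lift K ![X, Y]
          ((![1, 0] : Fin 2 → FreeAlgebra K (Fin 2)) i)) =
        ![X + Matrix.scalar (Fin n) s, Y] := by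
      funext i
      fin_cases i
      · simp [Matrix.smul_one_eq_diagonal]
      · simp
    rw [e1] at h1
    exact h1
  · intro i
    fin_cases i
    · have h2 := Md_one (K := K) (σ := Fin 2)
      have e1 : (fun _ : Fin 2 => (0 : ℤ)) =
          fun j => (if j = 0 then 1 else 0) - (![1, 0] : Fin 2 → ℤ) j := by
        funext j
        fin_cases j <;> simp
      rw [e1] at h2
      exact h2
    · exact Submodule.zero_mem _
  · intro d hd g hg hp
    have e1 : (fun i => (![(a : ℤ), (b : ℤ)] : Fin 2 → ℤ) i -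
        d * (![1, 0] : Fin 2 → ℤ) i) = ![(a : ℤ) - d, (b : ℤ)] := by
      funext j
      fin_cases j <;> simp
    rw [e1] at hg
    exact hmin _ (by omega) g hg hp

end Pool.Agent.Q220.NC
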