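import Mathlib
import Pool.Agent.Q220.NC.Norm

/-!
Substitution of `p(L_x, R_x) y` for `y` in an `n`-central polynomial which is invariant under
`y ↦ y + g(x)`.
-/

set_option autoImplicit false

namespace Pool.Agent.Q220.NC

open Matrix Pool.Agent.H552R3.PC Pool.Agent.TH82.NC

variable {K : Type*} [Field K] {n : ℕ}

/-- `p(L_X, R_X) W`. -/
noncomputable def bi {A : Type*} [Ring A] [Algebra K A] (p : MvPolynomial (Fin 2) K) (X W : A) : A :=
  ∑ m ∈ p.support, p.coeff m • (X ^ m 0 * W * X ^ m 1)

theorem map_bi {A B : Type*} [Ring A] [Algebra K A] [Ring B] [Algebra K B] (φ : A →ₐ[K] B)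
    (p : MvPolynomial (Fin 2) K) (X W : A) : φ (bi p X W) = bi p (φ X) (φ W) := by
  unfold bi
  rw [map_sum]
  refine Finset.sum_congr rfl fun m _ => ?_
  rw [map_smul, map_mul, map_mul, map_pow, map_pow]

theorem bi_add {A : Type*} [Ring A] [Algebra K A] (p : MvPolynomial (Fin 2) K) (X W W' : A) :
    bi p X (W + W') = bi p X W + bi p X W' := by
  unfold bi
  rw [← Finset.sum_add_distrib]
  refine Finset.sum_congr rfl fun m _ => ?_
  rw [mul_add, add_mul, smul_add]

theorem bi_smul {A : Type*} [Ring A] [Algebra K A] (p : MvPolynomial (Fin 2) K) (X W : A) (c : K) :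
    bi p X (c • W) = c • bi p X W := by
  unfold bi
  rw [Finset.smul_sum]
  refine Finset.sum_congr rfl fun m _ => ?_
  rw [mul_smul_comm, smul_mul_assoc, smul_comm]

theorem bi_diag (p : MvPolynomial (Fin 2) K) (x : Fin n → K) (W : Matrix (Fin n) (Fin n) K)
    (i j : Fin n) : bi p (Matrix.diagonal x) W i j = W i j * MvPolynomial.eval ![x i, x j] p := by
  unfold bi
  rw [Matrix.sum_apply, MvPolynomial.eval_eq', Finset.mul_sum]
  refine Finset.sum_congr rfl fun m _ => ?_
  rw [Matrix.smul_apply, Matrix.diagonal_pow, Matrix.diagonal_pow, Matrix.mul_diagonal,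
    Matrix.diagonal_mul, Fin.prod_univ_two, smul_eq_mul]
  simp only [Pi.pow_apply, Matrix.cons_val_zero, Matrix.cons_val_one]
  ring

theorem aeval_diag (x : Fin n → K) (g : Polynomial K) :
    Polynomial.aeval (Matrix.diagonal x : Matrix (Fin n) (Fin n) K) g =
      Matrix.diagonal fun i => g.eval (x i) := by
  have h := Polynomial.aeval_algHom_apply (Matrix.diagonalAlgHom K (α := K) (n := Fin n)) x g
  rw [Matrix.diagonalAlgHom_apply] at h
  rw [h, Matrix.diagonalAlgHom_apply]
  congr 1
  funext i
  have h2 := Polynomial.aeval_algHom_apply (Pi.evalAlgHom K (fun _ : Fin n => K) i) x g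
  rw [Pi.evalAlgHom_apply, Pi.evalAlgHom_apply] at h2
  rw [← h2, Polynomial.coe_aeval_eq_eval]

/-- Distinct elements at which `p` does not vanish. -/
theorem exists_pts [Infinite K] (n : ℕ) {p : MvPolynomial (Fin 2) K} (hp : p ≠ 0) :
    ∃ x : Fin n → K, Function.Injective x ∧
      ∀ i j, i ≠ j → MvPolynomial.eval ![x i, x j] p ≠ 0 := by
  classical
  set Q : MvPolynomial (Fin n) K := ∏ i, ∏ j ∈ Finset.univ.erase i,
    ((MvPolynomial.X i - MvPolynomial.X j) * MvPolynomial.rename ![i, j] p) with hQ
  have hne : Q ≠ 0 := by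
    rw [hQ]
    refine Finset.prod_ne_zero_iff.mpr fun i _ => Finset.prod_ne_zero_iff.mpr fun j hj => ?_
    have hij : i ≠ j := fun h => (Finset.mem_erase.mp hj).1 h.symm
    refine mul_ne_zero ?_ ?_
    · rw [sub_ne_zero]
      exact fun h => hij (MvPolynomial.X_injective h)
    · have hinj : Function.Injective (![i, j] : Fin 2 → Fin n) := by
        intro a b hab
        fin_cases a <;> fin_cases b
        · rfl
        · exact absurd hab hij
        · exact absurd hab hij.symm
        · rfl
      intro h0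
      exact hp (MvPolynomial.rename_injective _ hinj (by rw [h0, map_zero]))
  obtain ⟨x, hx⟩ : ∃ x : Fin n → K, MvPolynomial.eval x Q ≠ 0 := by
    by_contra hcon
    push Not at hcon
    exact hne (MvPolynomial.funext fun x => by rw [hcon x, map_zero])
  rw [hQ, map_prod, Finset.prod_ne_zero_iff] at hx
  have key : ∀ i j, i ≠ j → x i - x j ≠ 0 ∧ MvPolynomial.eval ![x i, x j] p ≠ 0 := by
    intro i j hij
    have h1 := hx i (Finset.mem_univ _)
    rw [map_prod, Finset.prod_ne_zero_iff] at h1
    have h2 := h1 j (Finset.mem_erase.mpr ⟨hij.symm, Finset.mem_univ _⟩)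
    rw [map_mul, map_sub, MvPolynomial.eval_X, MvPolynomial.eval_X, MvPolynomial.eval_rename] at h2
    have e : x ∘ ![i, j] = ![x i, x j] := by
      funext a
      fin_cases a <;> rfl
    rw [e] at h2
    exact ⟨left_ne_zero_of_mul h2, right_ne_zero_of_mul h2⟩
  refine ⟨x, fun i j hij => ?_, fun i j hij => (key i j hij).2⟩
  by_contra hne2
  exact (key i j hne2).1 (sub_eq_zero.mpr hij)

/-- If `f (x, p(L_x, R_x) y)` is scalar valued, then so is `f`. -/
theorem SV_of_bi [Infinite K] {f : FreeAlgebra K (Fin 2)} (hinv : InvY n f)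
    {p : MvPolynomial (Fin 2) K} (hp : p ≠ 0)
    (hSV : SV n (FreeAlgebra.lift K
      ![FreeAlgebra.ι K (0 : Fin 2), bi p (FreeAlgebra.ι K 0) (FreeAlgebra.ι K 1)] f)) :
    SV n f := by
  classical
  obtain ⟨x, hx1, hx2⟩ := exists_pts n hp
  -- values at the good points
  have hval : ∀ X W Z : Matrix (Fin n) (Fin n) K, FreeAlgebra.lift K ![X, bi p X W] f * Z =
      Z * FreeAlgebra.lift K ![X, bi p X W] f := by
    intro X W Z
    have h := comm_of_SV hSV ![X, W] Z
    rw [lift_map] at h
    have e : (fun i => FreeAlgebra.lift K ![X, W]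
        ((![FreeAlgebra.ι K (0 : Fin 2), bi p (FreeAlgebra.ι K 0) (FreeAlgebra.ι K 1)] :
          Fin 2 → FreeAlgebra K (Fin 2)) i)) = ![X, bi p X W] := by
      funext i
      fin_cases i
      · simp
      · simp [map_bi]
    rw [e] at h
    exact h
  have hgood : ∀ X Y Z : Matrix (Fin n) (Fin n) K,
      (∃ (W : Matrix (Fin n) (Fin n) K) (g : Polynomial K),
        Y = bi p X W + Polynomial.aeval X g) →
      FreeAlgebra.lift K ![X, Y] f * Z = Z * FreeAlgebra.lift K ![X, Y] f := by
    rintro X Y Z ⟨W, g, rfl⟩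
    have h1 := hinv X (bi p X W) Z g
    have h2 := hval X W Z
    rw [sub_mul, mul_sub, h2] at h1
    exact sub_left_inj.mp h1
  -- the linear maps
  let g : Matrix (Fin n) (Fin n) K → Polynomial K := fun B =>
    Lagrange.interpolate Finset.univ x (fun i => B i i)
  let A : Matrix (Fin n) (Fin n) K → Matrix (Fin n) (Fin n) K := fun B =>
    Matrix.of fun i j => if i = j then 0 else B i j / MvPolynomial.eval ![x i, x j] p
  have hAB : ∀ B, bi p (Matrix.diagonal x) (A B) +
      Polynomial.aeval (Matrix.diagonal x : Matrix (Fin n) (Fin n) K) (g B) = B := by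
    intro B
    ext i j
    rw [Matrix.add_apply, bi_diag, aeval_diag]
    by_cases hij : i = j
    · subst hij
      have e1 : A B i i = 0 := by simp [A]
      rw [e1, zero_mul, zero_add, Matrix.diagonal_apply_eq]
      exact Lagrange.eval_interpolate_at_node _ (fun a _ b _ h => hx1 h) (Finset.mem_univ i)
    · have e1 : A B i j = B i j / MvPolynomial.eval ![x i, x j] p := by simp [A, hij]
      rw [e1, div_mul_cancel₀ _ (hx2 i j hij), Matrix.diagonal_apply_ne _ hij, add_zero]
  -- the line through the diagonal matrix and an arbitrary matrix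
  suffices hall : ∀ X1 Y Z : Matrix (Fin n) (Fin n) K, FreeAlgebra.lift K ![X1, Y] f * Z =
      Z * FreeAlgebra.lift K ![X1, Y] f by
    apply SV_of_comm
    intro X Z
    have e : X = ![X 0, X 1] := by
      funext i
      fin_cases i <;> rfl
    rw [e]
    exact hall _ _ _
  intro X1 Y Z
  set X0 : Matrix (Fin n) (Fin n) K := Matrix.diagonal x with hX0
  let cm : Matrix (Fin n) (Fin n) K →ₐ[K] Matrix (Fin n) (Fin n) (Polynomial K) :=
    (Algebra.ofId K (Polynomial K)).mapMatrix
  let es : K → Matrix (Fin n) (Fin n) (Polynomial K) →ₐ[K] Matrix (Fin n) (Fin n) K := fun s =>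
    (Polynomial.aeval (R := K) s).mapMatrix
  have hec : ∀ s B, es s (cm B) = B := by
    intro s B
    ext i j
    simp [es, cm, Algebra.ofId_apply]
  let XR : Matrix (Fin n) (Fin n) (Polynomial K) := cm X0 + (Polynomial.X : Polynomial K) • cm (X1 - X0)
  have heX : ∀ s, es s XR = X0 + s • (X1 - X0) := by
    intro s
    ext i j
    simp [es, XR, cm, Algebra.ofId_apply]
  let M : Matrix (Fin n × Fin n) (Fin n × Fin n) (Polynomial K) := Matrix.of fun ij kl =>
    (bi p XR (cm (A (Matrix.single kl.1 kl.2 1))) +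
      Polynomial.aeval XR (g (Matrix.single kl.1 kl.2 1))) ij.1 ij.2
  have heM : ∀ s ij kl, (M ij kl).eval s =
      (bi p (X0 + s • (X1 - X0)) (A (Matrix.single kl.1 kl.2 1)) +
      Polynomial.aeval (X0 + s • (X1 - X0)) (g (Matrix.single kl.1 kl.2 1))) ij.1 ij.2 := by
    intro s ij kl
    have h1 : es s (bi p XR (cm (A (Matrix.single kl.1 kl.2 1))) +
      Polynomial.aeval XR (g (Matrix.single kl.1 kl.2 1))) =
      bi p (X0 + s • (X1 - X0)) (A (Matrix.single kl.1 kl.2 1)) +
      Polynomial.aeval (X0 + s • (X1 - X0)) (g (Matrix.single kl.1 kl.2 1)) := by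
      rw [map_add, map_bi, hec, ← Polynomial.aeval_algHom_apply, heX]
    rw [← h1]
    simp [es, M, Polynomial.coe_aeval_eq_eval]
  set q := M.det with hq
  have hq0 : q.eval 0 = 1 := by
    have h1 : q.eval 0 = (M.map (Polynomial.evalRingHom 0)).det := by
      rw [hq, ← RingHom.mapMatrix_apply, ← RingHom.map_det]
      rfl
    rw [h1]
    have h2 : M.map (Polynomial.evalRingHom (0 : K)) = 1 := by
      ext ij kl
      rw [Matrix.map_apply, Polynomial.coe_evalRingHom, heM, zero_smul, add_zero, hAB]
      rw [Matrix.single_apply, Matrix.one_apply]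
      by_cases h : ij = kl
      · subst h; simp
      · rw [if_neg h, if_neg]
        rintro ⟨h3, h4⟩
        exact h (Prod.ext h3.symm h4.symm)
    rw [h2, Matrix.det_one]
  have hqne : q ≠ 0 := by
    intro h
    rw [h, Polynomial.eval_zero] at hq0
    exact zero_ne_one hq0
  have hsurj : ∀ s : K, q.eval s ≠ 0 →
      ∃ (W : Matrix (Fin n) (Fin n) K) (h : Polynomial K), Y = bi p (X0 + s • (X1 - X0)) W +
      Polynomial.aeval (X0 + s • (X1 - X0)) h := by
    intro s hs
    set N := M.map (Polynomial.evalRingHom s) with hN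
    have hdet : N.det ≠ 0 := by
      have h1 : q.eval s = N.det := by
        rw [hq, hN, ← RingHom.mapMatrix_apply, ← RingHom.map_det]
        rfl
      rwa [← h1]
    set w := N⁻¹ *ᵥ (fun ij : Fin n × Fin n => Y ij.1 ij.2) with hw
    have hNw : N *ᵥ w = fun ij : Fin n × Fin n => Y ij.1 ij.2 := by
      rw [hw, Matrix.mulVec_mulVec, Matrix.mul_nonsing_inv _ (isUnit_iff_ne_zero.mpr hdet),
        Matrix.one_mulVec]
    let BL : Matrix (Fin n) (Fin n) K →ₗ[K] Matrix (Fin n) (Fin n) K :=
      { toFun := bi p (X0 + s • (X1 - X0))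
        map_add' := bi_add p _
        map_smul' := fun c W => bi_smul p _ W c }
    refine ⟨∑ kl : Fin n × Fin n, w kl • A (Matrix.single kl.1 kl.2 1),
      ∑ kl : Fin n × Fin n, w kl • g (Matrix.single kl.1 kl.2 1), ?_⟩
    have h1 : bi p (X0 + s • (X1 - X0))
        (∑ kl : Fin n × Fin n, w kl • A (Matrix.single kl.1 kl.2 1)) =
        ∑ kl : Fin n × Fin n, w kl •
          bi p (X0 + s • (X1 - X0)) (A (Matrix.single kl.1 kl.2 1)) := by
      change BL _ = _
      rw [map_sum]
      refine Finset.sum_congr rfl fun kl _ => ?_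
      rw [map_smul]
      rfl
    rw [h1, map_sum, ← Finset.sum_add_distrib]
    ext i j
    have h2 := congrFun hNw (i, j)
    simp only at h2
    rw [← h2, Matrix.mulVec, dotProduct, Matrix.sum_apply]
    refine Finset.sum_congr rfl fun kl _ => ?_
    rw [hN, Matrix.map_apply, Polynomial.coe_evalRingHom, heM, map_smul, ← smul_add,
      Matrix.smul_apply, smul_eq_mul, mul_comm]
  -- the conclusion
  set V := FreeAlgebra.lift K ![XR, cm Y] f with hV
  have heV : ∀ s, es s V = FreeAlgebra.lift K ![X0 + s • (X1 - X0), Y] f := by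
    intro s
    rw [hV, lift_map]
    congr 2
    funext i
    fin_cases i
    · exact heX s
    · exact hec s Y
  have hU : ∀ i j, (V * cm Z - cm Z * V) i j = 0 := by
    intro i j
    have h1 : q * (V * cm Z - cm Z * V) i j = 0 := by
      apply Polynomial.funext
      intro s
      rw [Polynomial.eval_mul, Polynomial.eval_zero]
      by_cases hs : q.eval s = 0
      · rw [hs, zero_mul]
      · have h2 : es s (V * cm Z - cm Z * V) = 0 := by
          rw [map_sub, map_mul, map_mul, hec, heV, hgood _ _ Z (hsurj s hs), sub_self]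
        have h3 := congrFun (congrFun h2 i) j
        have h4 : es s (V * cm Z - cm Z * V) i j = ((V * cm Z - cm Z * V) i j).eval s := by
          simp only [es, AlgHom.mapMatrix_apply, Matrix.map_apply, Polynomial.coe_aeval_eq_eval]
        rw [← h4, h3, Matrix.zero_apply, mul_zero]
    exact (mul_eq_zero.mp h1).resolve_left hqne
  have hU0 : V * cm Z - cm Z * V = 0 := by
    ext1 i j
    exact hU i j
  have h1 := congrArg (es 1) hU0
  rw [map_sub, map_mul, map_mul, hec, heV, map_zero, one_smul, add_sub_cancel, sub_eq_zero] at h1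
  exact h1

end Pool.Agent.Q220.NC
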