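import Mathlib
import Pool.Agent.Q220.NC.Two

/-!
Pairs of polynomials with `f g = ζ g f` on `n × n` matrices, `ζ` a primitive `n`-th root of unity.
-/

set_option autoImplicit false

namespace Pool.Agent.Q220.NC

open Matrix Pool.Agent.H552R3.PC Pool.Agent.TH82.NC

section Closed

variable {L : Type*} [Field L] {n : ℕ}

theorem mul_pow_zeta {ζ : L} {M Y : Matrix (Fin n) (Fin n) L} (h : M * Y = ζ • (Y * M)) (k : ℕ) :
    M * Y ^ k = ζ ^ k • (Y ^ k * M) := by
  induction k with
  | zero => simp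
  | succ k ih =>
    rw [pow_succ Y, ← mul_assoc, ih, smul_mul_assoc, mul_assoc, h, mul_smul_comm, smul_smul,
      pow_succ ζ, ← mul_assoc]

theorem pow_mul_zeta {ζ : L} {M Y : Matrix (Fin n) (Fin n) L} (h : M * Y = ζ • (Y * M)) (k : ℕ) :
    M ^ k * Y = ζ ^ k • (Y * M ^ k) := by
  induction k with
  | zero => simp
  | succ k ih =>
    rw [pow_succ' M, mul_assoc, ih, mul_smul_comm, ← mul_assoc, h, smul_mul_assoc, smul_smul,
      mul_assoc, pow_succ ζ]

/-- A matrix which commutes with `M` and `Y` is scalar. -/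
theorem scalar_of_comm_two [IsAlgClosed L] (hn : 0 < n) {ζ : L} (hζ : IsPrimitiveRoot ζ n)
    {M Y W : Matrix (Fin n) (Fin n) L} (hM : M.det ≠ 0) (hY : Y.det ≠ 0)
    (h : M * Y = ζ • (Y * M)) (h1 : W * M = M * W) (h2 : W * Y = Y * W) :
    ∃ c : L, W = Matrix.scalar (Fin n) c := by
  have hne : Nonempty (Fin n) := ⟨⟨0, hn⟩⟩
  have hnz : NeZero n := ⟨hn.ne'⟩
  obtain ⟨lam, hlam⟩ := Module.End.exists_eigenvalue (Matrix.toLin' M)
  obtain ⟨v, hv⟩ := hlam.exists_hasEigenvector
  have hv0 : v ≠ 0 := hv.2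
  have hMv : M *ᵥ v = lam • v := by
    have := hv.apply_eq_smul
    rwa [Matrix.toLin'_apply] at this
  have hlam0 : lam ≠ 0 := by
    rintro rfl
    rw [zero_smul] at hMv
    exact hM (Matrix.exists_mulVec_eq_zero_iff.mp ⟨v, hv0, hMv⟩)
  set u : Fin n → (Fin n → L) := fun k => (Y ^ (k : ℕ)) *ᵥ v with hu
  have hMu : ∀ k : Fin n, M *ᵥ u k = (ζ ^ (k : ℕ) * lam) • u k := by
    intro k
    rw [hu]
    dsimp only
    rw [Matrix.mulVec_mulVec, mul_pow_zeta h, Matrix.smul_mulVec, ← Matrix.mulVec_mulVec, hMv,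
      Matrix.mulVec_smul, smul_smul]
  have hu0 : ∀ k, u k ≠ 0 := by
    intro k hk
    have h3 : (Y ^ (k : ℕ)).det ≠ 0 := by
      rw [Matrix.det_pow]; exact pow_ne_zero _ hY
    exact h3 (Matrix.exists_mulVec_eq_zero_iff.mp ⟨v, hv0, hk⟩)
  have hinj : Function.Injective (fun k : Fin n => ζ ^ (k : ℕ) * lam) := by
    intro i j hij
    have h3 := mul_right_cancel₀ hlam0 hij
    exact Fin.ext (hζ.pow_inj i.isLt j.isLt h3)
  have hli : LinearIndependent L u := by
    refine Module.End.eigenvectors_linearIndependent' (Matrix.toLin' M)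
      (fun k : Fin n => ζ ^ (k : ℕ) * lam) hinj u (fun k => ?_)
    refine ⟨?_, hu0 k⟩
    rw [Module.End.mem_eigenspace_iff, Matrix.toLin'_apply]
    exact hMu k
  set b := basisOfLinearIndependentOfCardEqFinrank hli (by simp) with hb
  have hbu : ∀ k, b k = u k := fun k => by
    rw [hb, coe_basisOfLinearIndependentOfCardEqFinrank]
  have hcoord : ∀ (k : Fin n) (y : Fin n → L), b.coord k (M *ᵥ y) =
      (ζ ^ (k : ℕ) * lam) * b.coord k y := by
    intro k y
    have h3 : (b.coord k).comp (Matrix.toLin' M) = (ζ ^ (k : ℕ) * lam) • b.coord k := by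
      apply b.ext
      intro j
      rw [LinearMap.comp_apply, Matrix.toLin'_apply, hbu, hMu, map_smul, ← hbu,
        LinearMap.smul_apply, Module.Basis.coord_apply, Module.Basis.repr_self]
      by_cases hjk : j = k
      · subst hjk; rfl
      · rw [Finsupp.single_apply, if_neg hjk, smul_zero, smul_zero]
    have h4 := LinearMap.congr_fun h3 y
    rw [LinearMap.comp_apply, Matrix.toLin'_apply, LinearMap.smul_apply, smul_eq_mul] at h4
    exact h4
  have hWv : ∃ c : L, W *ᵥ v = c • v := by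
    have e1 : M *ᵥ (W *ᵥ v) = lam • (W *ᵥ v) := by
      rw [Matrix.mulVec_mulVec, ← h1, ← Matrix.mulVec_mulVec, hMv, Matrix.mulVec_smul]
    refine ⟨b.coord 0 (W *ᵥ v), ?_⟩
    have hv' : v = b 0 := by
      rw [hbu, hu]
      simp
    have e2 : ∀ k : Fin n, k ≠ 0 → b.coord k (W *ᵥ v) = 0 := by
      intro k hk
      have e3 := hcoord k (W *ᵥ v)
      rw [e1, map_smul, smul_eq_mul] at e3
      have e4 : (ζ ^ (k : ℕ) * lam - lam) * b.coord k (W *ᵥ v) = 0 := by
        rw [sub_mul, ← e3, sub_self]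
      rcases mul_eq_zero.mp e4 with e5 | e5
      · exfalso
        apply hk
        apply hinj
        change ζ ^ (k : ℕ) * lam = ζ ^ ((0 : Fin n) : ℕ) * lam
        rw [Fin.val_zero, pow_zero, one_mul]
        exact sub_eq_zero.mp e5
      · exact e5
    have e6 := b.sum_repr (W *ᵥ v)
    rw [Finset.sum_eq_single 0] at e6
    · rw [← hv'] at e6
      exact e6.symm
    · intro k _ hk
      have := e2 k hk
      rw [Module.Basis.coord_apply] at this
      rw [this, zero_smul]
    · intro h; exact absurd (Finset.mem_univ _) h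
  obtain ⟨c, hc⟩ := hWv
  refine ⟨c, ?_⟩
  have h3 : Matrix.toLin' W = c • LinearMap.id := by
    apply b.ext
    intro k
    rw [Matrix.toLin'_apply, hbu, LinearMap.smul_apply, LinearMap.id_apply, hu]
    dsimp only
    have h4 : W * Y ^ (k : ℕ) = Y ^ (k : ℕ) * W :=
      (Commute.pow_right (h2 : Commute W Y) (k : ℕ)).eq
    rw [Matrix.mulVec_mulVec, h4, ← Matrix.mulVec_mulVec, hc, Matrix.mulVec_smul]
  apply Matrix.toLin'.injective
  rw [h3, Matrix.scalar_apply, ← Matrix.smul_one_eq_diagonal, map_smul, Matrix.toLin'_one]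

end Closed

variable {K : Type*} [Field K] {σ : Type*} {n : ℕ}

theorem comm_of_two (hn : 0 < n) {ζ : K} (hζ : IsPrimitiveRoot ζ n)
    {M Y W : Matrix (Fin n) (Fin n) K} (hM : M.det ≠ 0) (hY : Y.det ≠ 0)
    (h : M * Y = ζ • (Y * M)) (h1 : W * M = M * W) (h2 : W * Y = Y * W)
    (Z : Matrix (Fin n) (Fin n) K) : W * Z = Z * W := by
  set φ : Matrix (Fin n) (Fin n) K →ₐ[K] Matrix (Fin n) (Fin n) (AlgebraicClosure K) :=
    (Algebra.ofId K (AlgebraicClosure K)).mapMatrix with hφ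
  have hinj : Function.Injective φ := by
    intro A B hAB
    ext i j
    have := congrFun (congrFun hAB i) j
    exact (algebraMap K (AlgebraicClosure K)).injective this
  have hdet : ∀ A : Matrix (Fin n) (Fin n) K, A.det ≠ 0 → (φ A).det ≠ 0 := by
    intro A hA
    rw [hφ, ← AlgHom.map_det]
    exact (map_ne_zero_iff _ (algebraMap K (AlgebraicClosure K)).injective).mpr hA
  have hrel : φ M * φ Y = algebraMap K (AlgebraicClosure K) ζ • (φ Y * φ M) := by
    rw [← map_mul, h, map_smul, map_mul, algebraMap_smul]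
  obtain ⟨c, hc⟩ := scalar_of_comm_two hn
    (hζ.map_of_injective (algebraMap K (AlgebraicClosure K)).injective) (hdet M hM) (hdet Y hY)
    hrel (W := φ W) (by rw [← map_mul, h1, map_mul]) (by rw [← map_mul, h2, map_mul])
  apply hinj
  rw [map_mul, map_mul, hc]
  exact (Matrix.scalar_commute c (fun _ => Commute.all _ _) _).eq

/-- The `n`-th powers of two invertible `ζ`-commuting matrices are scalar. -/
theorem pow_comm_of_two (hn : 0 < n) {ζ : K} (hζ : IsPrimitiveRoot ζ n)
    {M Y : Matrix (Fin n) (Fin n) K} (hM : M.det ≠ 0) (hY : Y.det ≠ 0)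
    (h : M * Y = ζ • (Y * M)) (Z : Matrix (Fin n) (Fin n) K) :
    M ^ n * Z = Z * M ^ n ∧ Y ^ n * Z = Z * Y ^ n := by
  constructor
  · refine comm_of_two hn hζ hM hY h ?_ ?_ Z
    · rw [← pow_succ, ← pow_succ']
    · rw [pow_mul_zeta h, hζ.pow_eq_one, one_smul]
  · refine comm_of_two hn hζ hM hY h ?_ ?_ Z
    · rw [mul_pow_zeta h, hζ.pow_eq_one, one_smul]
    · rw [← pow_succ, ← pow_succ']

/-- `ζ`-commuting polynomials are `n`-central. -/
theorem nu_of_two [Infinite K] (hn : n.Prime) {ζ : K} (hζ : IsPrimitiveRoot ζ n)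
    {f g : FreeAlgebra K σ} (hf : ¬ Idt n f) (hg : ¬ Idt n g)
    (h : Idt n (f * g - ζ • (g * f))) : IsNu n n f ∧ IsNu n n g := by
  have hrel : ∀ X : σ → Matrix (Fin n) (Fin n) K,
      FreeAlgebra.lift K X f * FreeAlgebra.lift K X g =
        ζ • (FreeAlgebra.lift K X g * FreeAlgebra.lift K X f) := by
    intro X
    have := h X
    rwa [map_sub, map_smul, map_mul, map_mul, sub_eq_zero] at this
  have hcom := common f g (inv_of_ne n f hf) (inv_of_ne n g hg)
  have h0 : ∃ X : σ → Matrix (Fin n) (Fin n) K, (FreeAlgebra.lift K X (f * g)).det ≠ 0 := by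
    obtain ⟨X, h1, h2⟩ := hcom
    refine ⟨X, ?_⟩
    rw [map_mul, Matrix.det_mul]
    exact mul_ne_zero h1 h2
  have hζ1 : ζ ≠ 1 := hζ.ne_one hn.one_lt
  have hP : ∀ X : σ → Matrix (Fin n) (Fin n) K, (FreeAlgebra.lift K X (f * g)).det ≠ 0 →
      (FreeAlgebra.lift K X f).det ≠ 0 ∧ (FreeAlgebra.lift K X g).det ≠ 0 := by
    intro X hX
    rw [map_mul, Matrix.det_mul] at hX
    exact ⟨left_ne_zero_of_mul hX, right_ne_zero_of_mul hX⟩
  have hns : ∀ {A B : Matrix (Fin n) (Fin n) K}, A.det ≠ 0 → B.det ≠ 0 →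
      A * B = ζ • (B * A) → A * B ≠ B * A := by
    intro A B hA hB h1 h2
    have hne : Nonempty (Fin n) := ⟨⟨0, hn.pos⟩⟩
    have h3 : (ζ - 1) • (B * A) = 0 := by
      rw [sub_smul, one_smul, ← h1, h2, sub_self]
    rcases smul_eq_zero.mp h3 with h4 | h4
    · exact hζ1 (sub_eq_zero.mp h4)
    · have := congrArg Matrix.det h4
      rw [Matrix.det_mul, Matrix.det_zero] at this
      exact (mul_ne_zero hB hA) this
  obtain ⟨X1, hX1⟩ := h0
  obtain ⟨hX2, hX3⟩ := hP X1 hX1
  constructor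
  · apply nu_of hn
    · apply SV_of_comm
      refine generic (f * g) (f ^ n) ⟨X1, hX1⟩ ?_
      intro X hX Z
      rw [map_pow]
      exact (pow_comm_of_two hn.pos hζ (hP X hX).1 (hP X hX).2 (hrel X) Z).1
    · intro hcon
      exact hns hX2 hX3 (hrel X1) (comm_of_SV hcon X1 _)
  · apply nu_of hn
    · apply SV_of_comm
      refine generic (f * g) (g ^ n) ⟨X1, hX1⟩ ?_
      intro X hX Z
      rw [map_pow]
      exact (pow_comm_of_two hn.pos hζ (hP X hX).1 (hP X hX).2 (hrel X) Z).2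
    · intro hcon
      exact hns hX2 hX3 (hrel X1) (comm_of_SV hcon X1 _).symm

end Pool.Agent.Q220.NC
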