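import Mathlib
import Pool.Agent.Q220.NC.Kum

/-!
The polynomial `∑ ζ ^ (n - j) f ^ j t f ^ (n - j)`.
-/

set_option autoImplicit false

namespace Pool.Agent.Q220.NC

open Matrix Pool.Agent.H552R3.PC Pool.Agent.TH82.NC

variable {K : Type*} [Field K] {σ : Type*} {n : ℕ}

/-- `f` as a polynomial in the variables `some i`. -/
noncomputable def emb (f : FreeAlgebra K σ) : FreeAlgebra K (Option σ) :=
  FreeAlgebra.lift K (fun i => FreeAlgebra.ι K (some i)) f

/-- `∑ ζ ^ (n - j) f ^ j t f ^ (n - j)`, `t = none`. -/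
noncomputable def twist (ζ : K) (n : ℕ) (f : FreeAlgebra K σ) : FreeAlgebra K (Option σ) :=
  ∑ j ∈ Finset.range n, ζ ^ (n - j) • (emb f ^ j * FreeAlgebra.ι K none * emb f ^ (n - j))

/-- The matrix version. -/
noncomputable def tw (ζ : K) (n : ℕ) (M T : Matrix (Fin n) (Fin n) K) :
    Matrix (Fin n) (Fin n) K :=
  ∑ j ∈ Finset.range n, ζ ^ (n - j) • (M ^ j * T * M ^ (n - j))

theorem lift_emb (X : Option σ → Matrix (Fin n) (Fin n) K) (f : FreeAlgebra K σ) :
    FreeAlgebra.lift K X (emb f) = FreeAlgebra.lift K (fun i => X (some i)) f := by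
  unfold emb
  rw [lift_map]
  congr 2
  funext i
  rw [FreeAlgebra.lift_ι_apply]

theorem lift_twist (ζ : K) (X : Option σ → Matrix (Fin n) (Fin n) K) (f : FreeAlgebra K σ) :
    FreeAlgebra.lift K X (twist ζ n f) =
      tw ζ n (FreeAlgebra.lift K (fun i => X (some i)) f) (X none) := by
  unfold twist tw
  rw [map_sum]
  refine Finset.sum_congr rfl fun j _ => ?_
  rw [map_smul, map_mul, map_mul, map_pow, map_pow, FreeAlgebra.lift_ι_apply, lift_emb]

/-- The relation with an arbitrary `n`-th root of unity. -/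
theorem tw_rel {ζ : K} (hζ : ζ ^ n = 1) {M : Matrix (Fin n) (Fin n) K} {a : K}
    (hM : M ^ n = Matrix.scalar (Fin n) a) (T : Matrix (Fin n) (Fin n) K) :
    M * tw ζ n M T = ζ • (tw ζ n M T * M) := by
  set G : ℕ → Matrix (Fin n) (Fin n) K :=
    fun j => ζ ^ (n - j + 1) • (M ^ j * T * M ^ (n - j + 1)) with hG
  have h1 : M * tw ζ n M T = ∑ j ∈ Finset.range n, G (j + 1) := by
    unfold tw
    rw [Finset.mul_sum]
    refine Finset.sum_congr rfl fun j hj => ?_
    have hj' := Finset.mem_range.mp hj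
    rw [hG]
    dsimp only
    rw [show n - (j + 1) + 1 = n - j by omega, mul_smul_comm, pow_succ' M j]
    simp only [mul_assoc]
  have h2 : ζ • (tw ζ n M T * M) = ∑ j ∈ Finset.range n, G j := by
    unfold tw
    rw [Finset.sum_mul, Finset.smul_sum]
    refine Finset.sum_congr rfl fun j _ => ?_
    rw [hG]
    dsimp only
    rw [smul_mul_assoc, smul_smul, ← pow_succ', mul_assoc _ _ M, ← pow_succ]
  have h3 : G n = G 0 := by
    rw [hG]
    dsimp only
    rw [Nat.sub_self, Nat.sub_zero, zero_add, pow_one, pow_one, pow_zero, one_mul, pow_succ ζ, hζ,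
      one_mul, pow_succ M, hM, sc_mul, sc_mul, smul_mul_assoc, mul_smul_comm]
  rw [h1, h2, ← sub_eq_zero, ← Finset.sum_sub_distrib, Finset.sum_range_sub, h3, sub_self]

/-- The sum over all powers of `ζ`. -/
theorem sum_tw (hn : 0 < n) {ζ : K} (hζ : IsPrimitiveRoot ζ n) {M : Matrix (Fin n) (Fin n) K}
    {a : K} (hM : M ^ n = Matrix.scalar (Fin n) a) (T : Matrix (Fin n) (Fin n) K) :
    ∑ k ∈ Finset.range n, tw (ζ ^ k) n M T = ((n : K) * a) • T := by
  unfold tw
  rw [Finset.sum_comm, Finset.sum_eq_single 0]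
  · have h1 : ∀ k ∈ Finset.range n, (ζ ^ k) ^ (n - 0) • (M ^ 0 * T * M ^ (n - 0)) = a • T := by
      intro k _
      rw [Nat.sub_zero, ← pow_mul, mul_comm k n, pow_mul, hζ.pow_eq_one, one_pow, one_smul,
        pow_zero, one_mul, hM, mul_sc]
    rw [Finset.sum_congr rfl h1, Finset.sum_const, Finset.card_range, ← Nat.cast_smul_eq_nsmul K,
      smul_smul]
  · intro j hj hj0
    have hj' := Finset.mem_range.mp hj
    rw [← Finset.sum_smul]
    have h2 : ∑ k ∈ Finset.range n, (ζ ^ k) ^ (n - j) = 0 := by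
      have h3 : ∀ k, (ζ ^ k) ^ (n - j) = (ζ ^ (n - j)) ^ k := fun k => by
        rw [← pow_mul, ← pow_mul, mul_comm]
      simp only [h3]
      have h4 : ζ ^ (n - j) ≠ 1 := by
        intro h5
        have := (hζ.pow_eq_one_iff_dvd _).mp h5
        have := Nat.le_of_dvd (by omega) this
        omega
      have h5 := geom_sum_mul (ζ ^ (n - j)) n
      rw [← pow_mul, mul_comm (n - j) n, pow_mul, hζ.pow_eq_one, one_pow, sub_self] at h5
      exact (mul_eq_zero.mp h5).resolve_right (sub_ne_zero.mpr h4)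
    rw [h2, zero_smul]
  · intro h; exact absurd (Finset.mem_range.mpr hn) h

theorem twist_rel [Infinite K] {ζ : K} (hζ : ζ ^ n = 1) {f : FreeAlgebra K σ}
    (h : SV n (f ^ n)) : Idt n (emb f * twist ζ n f - ζ • (twist ζ n f * emb f)) := by
  intro X
  obtain ⟨a, ha⟩ := h (fun i => X (some i))
  rw [map_pow] at ha
  rw [map_sub, map_smul, map_mul, map_mul, lift_twist, lift_emb, tw_rel hζ ha, sub_self]

theorem emb_Idt {f : FreeAlgebra K σ} (h : ¬ Idt n f) : ¬ Idt n (emb f) := by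
  intro h0
  apply h
  intro X
  have := h0 (fun o => o.elim 0 X)
  rwa [lift_emb] at this

theorem twist_Idt [Infinite K] (hn : n.Prime) {ζ : K} (hζ : IsPrimitiveRoot ζ n)
    {f : FreeAlgebra K σ} (h : SV n (f ^ n)) (hns : ¬ SV n f) : ¬ Idt n (twist ζ n f) := by
  have hne : Nonempty (Fin n) := ⟨⟨0, hn.pos⟩⟩
  have hnz : NeZero n := ⟨hn.ne_zero⟩
  have hnK : (n : K) ≠ 0 := (hζ.neZero').out
  have hid : ¬ Idt n f := fun h0 => hns (SV_of_Idt h0)
  have hdet : ∀ {M : Matrix (Fin n) (Fin n) K} {a : K}, M.det ≠ 0 →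
      M ^ n = Matrix.scalar (Fin n) a → a ≠ 0 := by
    rintro M a hM ha rfl
    rw [map_zero] at ha
    have := congrArg Matrix.det ha
    rw [Matrix.det_pow, Matrix.det_zero] at this
    exact hM (pow_eq_zero_iff hn.ne_zero |>.mp this)
  -- some `ζ ^ k`
  obtain ⟨X0, hX0, T0, hT0⟩ := nonscalar_inv f f hns hid
  obtain ⟨a, ha⟩ := h X0
  rw [map_pow] at ha
  set M := FreeAlgebra.lift K X0 f with hM
  have ha0 : a ≠ 0 := hdet hX0 ha
  obtain ⟨k, hk0, hkn, hk⟩ : ∃ k, k ≠ 0 ∧ k < n ∧ tw (ζ ^ k) n M T0 ≠ 0 := by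
    by_contra hcon
    push Not at hcon
    have h1 := sum_tw hn.pos hζ ha T0
    rw [Finset.sum_eq_single 0 (fun k hk hk0 => hcon k hk0 (Finset.mem_range.mp hk))
      (fun h => absurd (Finset.mem_range.mpr hn.pos) h), pow_zero] at h1
    have h2 := tw_rel (ζ := (1 : K)) (one_pow n) ha T0
    rw [h1, one_smul, mul_smul_comm, smul_mul_assoc] at h2
    apply hT0
    have h3 : ((n : K) * a) ≠ 0 := mul_ne_zero hnK ha0
    exact smul_right_injective _ h3 h2
  have hcop : Nat.Coprime k n := (Nat.Coprime.symm ((Nat.Prime.coprime_iff_not_dvd hn).mpr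
    (Nat.not_dvd_of_pos_of_lt (Nat.pos_of_ne_zero hk0) hkn)))
  have hζk : (ζ ^ k) ^ n = 1 := by
    rw [← pow_mul, mul_comm, pow_mul, hζ.pow_eq_one, one_pow]
  have hFk : ¬ Idt n (twist (ζ ^ k) n f) := by
    intro h0
    apply hk
    have := h0 (fun o => o.elim T0 X0)
    rwa [lift_twist] at this
  obtain ⟨X1, hX1, hX2⟩ := common (emb f) (twist (ζ ^ k) n f)
    (inv_of_ne n _ (emb_Idt hid)) (inv_of_ne n _ hFk)
  rw [lift_emb] at hX1
  rw [lift_twist] at hX2
  obtain ⟨a1, ha1⟩ := h (fun i => X1 (some i))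
  rw [map_pow] at ha1
  set M1 := FreeAlgebra.lift K (fun i => X1 (some i)) f with hM1
  have ha10 : a1 ≠ 0 := hdet hX1 ha1
  set Y := tw (ζ ^ k) n M1 (X1 none) with hY
  have hrel : M1 * Y = ζ ^ k • (Y * M1) := tw_rel hζk ha1 _
  obtain ⟨m, hm⟩ := Nat.exists_mul_mod_eq_one_of_coprime hcop hn.one_lt
  have hrel2 : M1 * Y ^ m = ζ • (Y ^ m * M1) := by
    rw [mul_pow_zeta hrel, ← pow_mul]
    congr 1
    have h4 : k * m = 1 + n * (k * m / n) := by
      have := Nat.mod_add_div (k * m) n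
      omega
    rw [h4, pow_add, pow_one, pow_mul, hζ.pow_eq_one, one_pow, mul_one]
  intro h0
  have h5 := h0 (fun o => o.elim (Y ^ m) (fun i => X1 (some i)))
  rw [lift_twist] at h5
  change tw ζ n M1 (Y ^ m) = 0 at h5
  have h6 : tw ζ n M1 (Y ^ m) = ((n : K) * a1) • Y ^ m := by
    unfold tw
    have h7 : ∀ j ∈ Finset.range n, ζ ^ (n - j) • (M1 ^ j * Y ^ m * M1 ^ (n - j)) =
        a1 • Y ^ m := by
      intro j hj
      have hj' := Finset.mem_range.mp hj
      rw [pow_mul_zeta hrel2, smul_mul_assoc, smul_smul, ← pow_add, mul_assoc, ← pow_add,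
        show n - j + j = n by omega, show j + (n - j) = n by omega, hζ.pow_eq_one, one_smul, ha1,
        mul_sc]
    rw [Finset.sum_congr rfl h7, Finset.sum_const, Finset.card_range, ← Nat.cast_smul_eq_nsmul K,
      smul_smul]
  rw [h6] at h5
  rcases smul_eq_zero.mp h5 with h7 | h7
  · exact mul_ne_zero hnK ha10 h7
  · have := congrArg Matrix.det h7
    rw [Matrix.det_pow, Matrix.det_zero] at this
    exact hX2 (eq_zero_of_pow_eq_zero this)

/-- The main step. -/
theorem twist_nu [Infinite K] (hn : n.Prime) {ζ : K} (hζ : IsPrimitiveRoot ζ n)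
    {f : FreeAlgebra K σ} (h : SV n (f ^ n)) (hns : ¬ SV n f) : IsNu n n (twist ζ n f) :=
  (nu_of_two hn hζ (emb_Idt fun h0 => hns (SV_of_Idt h0)) (twist_Idt hn hζ h hns)
    (twist_rel hζ.pow_eq_one h)).2

/-- The commutator of two `ζ`-commuting polynomials. -/
theorem comm_nu [Infinite K] (hn : n.Prime) {ζ : K} (hζ : IsPrimitiveRoot ζ n)
    {f g : FreeAlgebra K σ} (hf : ¬ Idt n f) (hg : ¬ Idt n g)
    (h : Idt n (f * g - ζ • (g * f))) : IsNu n n (f * g - g * f) := by
  have hne : Nonempty (Fin n) := ⟨⟨0, hn.pos⟩⟩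
  have hζ1 : ζ ≠ 1 := hζ.ne_one hn.one_lt
  have hrel : ∀ X : σ → Matrix (Fin n) (Fin n) K,
      FreeAlgebra.lift K X f * FreeAlgebra.lift K X g =
        ζ • (FreeAlgebra.lift K X g * FreeAlgebra.lift K X f) := by
    intro X
    have := h X
    rwa [map_sub, map_smul, map_mul, map_mul, sub_eq_zero] at this
  have hval : ∀ X : σ → Matrix (Fin n) (Fin n) K, FreeAlgebra.lift K X (f * g - g * f) =
      (ζ - 1) • (FreeAlgebra.lift K X g * FreeAlgebra.lift K X f) := by
    intro X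
    rw [map_sub, map_mul, map_mul, hrel, sub_smul, one_smul]
  refine (nu_of_two hn hζ hf (g := f * g - g * f) ?_ ?_).2
  · intro h0
    obtain ⟨X, h1, h2⟩ := common f g (inv_of_ne n f hf) (inv_of_ne n g hg)
    have h3 := h0 X
    rw [hval] at h3
    rcases smul_eq_zero.mp h3 with h4 | h4
    · exact hζ1 (sub_eq_zero.mp h4)
    · have := congrArg Matrix.det h4
      rw [Matrix.det_mul, Matrix.det_zero] at this
      exact (mul_ne_zero h2 h1) this
  · intro X
    rw [map_sub, map_smul, map_mul, map_mul, hval, mul_smul_comm, smul_mul_assoc, ← mul_assoc,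
      hrel, smul_mul_assoc, smul_comm ζ (ζ - 1), sub_self]

end Pool.Agent.Q220.NC
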