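import Mathlib
import Pool.Agent.Q220.NC.Twist

/-!
Multidegrees of products.
-/

set_option autoImplicit false

namespace Pool.Agent.Q220.NC

variable {K : Type*} [Field K] {σ : Type*} [DecidableEq σ]

/-- Combinations of words of multidegree `e`. -/
def Hm (e : σ → ℕ) (f : FreeAlgebra K σ) : Prop := f ∈ Sp K (fun l => ∀ i, l.count i = e i)

theorem Hm.mul {e e' : σ → ℕ} {f g : FreeAlgebra K σ} (hf : Hm e f) (hg : Hm e' g) :
    Hm (fun i => e i + e' i) (f * g) := by
  unfold Hm Sp at *
  have h := Submodule.mul_mem_mul hf hg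
  rw [Submodule.span_mul_span] at h
  refine Submodule.span_mono ?_ h
  rintro x ⟨u, ⟨l, hl, rfl⟩, v, ⟨l', hl', rfl⟩, rfl⟩
  exact ⟨l ++ l', fun i => by rw [List.count_append, hl i, hl' i], by simp⟩

theorem Hm.one : Hm (fun _ => 0) (1 : FreeAlgebra K σ) :=
  Submodule.subset_span ⟨[], fun i => by simp, by simp⟩

theorem Hm.pow {e : σ → ℕ} {f : FreeAlgebra K σ} (hf : Hm e f) (k : ℕ) :
    Hm (fun i => k * e i) (f ^ k) := by
  induction k with
  | zero =>
    rw [pow_zero]
    convert Hm.one (K := K) (σ := σ) using 2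
    simp
  | succ k ih =>
    rw [pow_succ]
    convert ih.mul hf using 2
    ring

theorem Hm.smul {e : σ → ℕ} {f : FreeAlgebra K σ} (hf : Hm e f) (c : K) : Hm e (c • f) :=
  Submodule.smul_mem _ c hf

theorem Hm.sum {ι : Type*} {e : σ → ℕ} (s : Finset ι) (f : ι → FreeAlgebra K σ)
    (h : ∀ j ∈ s, Hm e (f j)) : Hm e (∑ j ∈ s, f j) :=
  Submodule.sum_mem _ h

omit [DecidableEq σ] in
theorem count_none (d : DecidableEq (Option σ)) (l : List σ) :
    @List.count (Option σ) (@instBEqOfDecidableEq _ d) none (l.map some) = 0 := by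
  apply List.count_eq_zero_of_not_mem
  simp

omit [DecidableEq σ] in
theorem count_some (d : DecidableEq (Option σ)) (d' : DecidableEq σ) (l : List σ) (i : σ) :
    @List.count (Option σ) (@instBEqOfDecidableEq _ d) (some i) (l.map some) =
      @List.count σ (@instBEqOfDecidableEq _ d') i l := by
  induction l with
  | nil => rfl
  | cons a l ih =>
    rw [List.map_cons, @List.count_cons (Option σ) (@instBEqOfDecidableEq _ d),
      @List.count_cons σ (@instBEqOfDecidableEq _ d'), ih]
    congr 1
    by_cases h : a = i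
    · subst h; simp
    · have h2 : ¬ (some a : Option σ) = some i := fun h3 => h (Option.some_injective _ h3)
      rw [if_neg, if_neg]
      · intro h3; exact h (@eq_of_beq _ (@instBEqOfDecidableEq _ d') _ a i h3)
      · intro h3; exact h2 (@eq_of_beq _ (@instBEqOfDecidableEq _ d) _ (some a) (some i) h3)

theorem Hm.emb {e : σ → ℕ} {f : FreeAlgebra K σ} (hf : Hm e f) :
    Hm (fun o : Option σ => o.elim 0 e) (emb f) := by
  unfold Hm Sp at hf
  induction hf using Submodule.span_induction with
  | mem x hx =>
    obtain ⟨l, hl, rfl⟩ := hx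
    refine Submodule.subset_span ⟨l.map some, ?_, ?_⟩
    · rintro (_ | i)
      · exact count_none _ l
      · exact (count_some _ _ l i).trans (hl i)
    · unfold NC.emb
      rw [map_list_prod, List.map_map, List.map_map]
      congr 1
      refine List.map_congr_left fun i _ => ?_
      simp
  | zero => unfold NC.emb; rw [map_zero]; exact Submodule.zero_mem _
  | add x y _ _ hx hy => unfold NC.emb at *; rw [map_add]; exact Submodule.add_mem _ hx hy
  | smul c x _ hx => unfold NC.emb at *; rw [map_smul]; exact Submodule.smul_mem _ c hx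

theorem Hm.twist {e : σ → ℕ} {f : FreeAlgebra K σ} (hf : Hm e f) (ζ : K) (n : ℕ) :
    Hm (fun o : Option σ => o.elim 1 (fun i => n * e i)) (twist ζ n f) := by
  unfold NC.twist
  refine Hm.sum _ _ fun j hj => Hm.smul ?_ _
  have hj' := Finset.mem_range.mp hj
  have h1 : Hm (fun o : Option σ => o.elim 1 (fun _ => 0))
      (FreeAlgebra.ι K none : FreeAlgebra K (Option σ)) := by
    refine Submodule.subset_span ⟨[none], ?_, by simp⟩
    rintro (_ | i) <;> simp
  convert ((hf.emb.pow j).mul h1).mul (hf.emb.pow (n - j)) using 2 with o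
  rcases o with _ | i
  · simp
  · simp only [Option.elim_some]
    have : n = j + (n - j) := by omega
    conv_lhs => rw [this]
    ring

end Pool.Agent.Q220.NC
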